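import Pool.Agent.Lib.MP_8a3537_gt.ROW.Main

/-!
# Only lines matter (MP_8a3537_gt, folder LL): definitions and Specs

Paper: `/team-store/8a3537_LL_h28.md`. The notation is that of the folders RO, ROK (`true` is the type `1`,
`false` the type `2`; first index target, second index source; `X1` leads from `true` to `false`, `X2` from
`false` to `true`). Data: `PPK L X1 X2 ∅ Yp Ym`, ends: `Geo d L X1 X2 ∅ x1 x2`.

Every module `XXX` is a file `Pool/Agent/Lib/MP_8a3537_gt/LL/XXX.lean` which imports this file and proves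
`theorem specXXX (deps, in this order) : SpecXXX` in the namespace `Pool.Agent.Lib.MP8a3537.LL`, own lemmas in
the namespace `XXXM`. All landed lemmas of the folders UV, AU, RO, ROK, ROW may be used, in particular the
theorems `mWDA`, `mWNI`, `mEFA`, `mELM`, `mNWT`, `mWDK`, `mSBK`, `mBLK`, `mBLG`, `mDRC`, `mSTY` of `ROK/Main.lean`
(no hypotheses; they are imported here), `RO.specUNQ`, `RO.specSCH`, `RO.specSCU`, `RO.specKNA`, `ROK.specSYK`,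
`ROK.specTFA`, `ROK.specDRG`, `specSWP`, `specTAT` of UV.
-/

set_option autoImplicit false

namespace Pool.Agent.Lib.MP8a3537.LL

open Matrix Pool.Agent.Lib.MP8a3537.UV Pool.Agent.Lib.MP8a3537.AU Pool.Agent.Lib.MP8a3537.RO
open Pool.Agent.Lib.MP8a3537.ROK

/-! ### Definitions -/

section Rings

variable {A : Type} [Ring A] {n : ℕ}

/-- `∑_{i < N} (ε a b)^i`. -/
noncomputable def Tn (ε : ℤˣ) (N : ℕ) (a b : Matrix (Fin n) (Fin n) A) : Matrix (Fin n) (Fin n) A :=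
  ∑ i ∈ Finset.range N, ((ε : ℤ) • (a * b)) ^ i

/-- The form `ρ` (`χ + ρ` is the new partner after the elimination of `ψ`). -/
noncomputable def rho [StarRing A] (ε : ℤˣ) (N : ℕ) (ψ χ : Matrix (Fin n) (Fin n) A) :
    Matrix (Fin n) (Fin n) A :=
  (ε : ℤ) • (Tn ε N (χ + (ε : ℤ) • χᴴ) (ψ + (ε : ℤ) • ψᴴ) * χᴴ *
      Tn ε N (ψ + (ε : ℤ) • ψᴴ) (χ + (ε : ℤ) • χᴴ) - χᴴ) -
    (ε : ℤ) • (Tn ε N (χ + (ε : ℤ) • χᴴ) (ψ + (ε : ℤ) • ψᴴ) * (χ + (ε : ℤ) • χᴴ) * ψ *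
      (χ + (ε : ℤ) • χᴴ) * Tn ε N (ψ + (ε : ℤ) • ψᴴ) (χ + (ε : ℤ) • χᴴ))

end Rings

section Groups

variable {G : Type} [Group G]

/-- `f` normalizes `L`. -/
def Ns (L : Subgroup G) (f : G) : Prop := ∀ h ∈ L, f * h * f⁻¹ ∈ L ∧ f⁻¹ * h * f ∈ L

/-- The union of the double cosets of `x` and `x⁻¹`. -/
def D2 (L : Subgroup G) (x : G) : Set G := {y | y ∈ dc L x ∨ y ∈ dc L x⁻¹}

/-- The words from `true` to `false` with letters in `c` and `X2`. -/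
def V1 (L : Subgroup G) (c X2 : Set G) : Set G := WS L c X2 ∅ false true

/-- The words from `false` to `true` with at least three letters in `c` and `X2`. -/
def V3 (L : Subgroup G) (c X2 : Set G) : Set G := {z | ∃ k, 3 ≤ k ∧ Wd L c X2 ∅ k true false z}

/-- `c` is biinvariant, closed under inverses and contained in `X`. -/
structure Pt (L : Subgroup G) (X c : Set G) : Prop where
  sub : ∀ x ∈ c, x ∈ X
  bi : Bi L c
  inv : ∀ x ∈ c, x⁻¹ ∈ c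

end Groups

section Geometry

variable (R G : Type) {V : Type} [Ring R] [StarRing R] [Group G] [MulAction G V] (d : V → V → ℕ)

/-- The claim for the nilpotency index `N`: all data with the ends `x1`, `x2`. -/
def Cl (N : ℕ) (x1 x2 : V) : Prop :=
  ∀ (L : Subgroup G) (X1 X2 Yp Ym : Set G), PPK L X1 X2 ∅ Yp Ym → Geo d L X1 X2 ∅ x1 x2 →
    ∀ (ε : ℤˣ) (n : ℕ) (ψ χ : Matrix (Fin n) (Fin n) (MonoidAlgebra R G)), SuppIn X1 ψ →
    SuppIn X2 χ → (nu ε (ψ + (ε : ℤ) • ψᴴ) 0 (χ + (ε : ℤ) • χᴴ)) ^ N = 0 →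
    StablyHyperbolic ε (UF ψ 0 χ)

/-- The longer exchanged pairs with a smaller stabilizer, at `x1`. -/
def HU (x1 x2 : V) : Prop :=
  ∀ f : G, f • f • x1 = x1 → d x1 (f • x1) = d x1 x2 + d x2 (f • x1) →
    ¬ Ns (MulAction.stabilizer G x1 ⊓ MulAction.stabilizer G x2) f → SE R G d x1 (f • x1)

/-- The line condition. -/
def HS (x1 x2 : V) : Prop :=
  ∀ u f : G, Ns (MulAction.stabilizer G x1 ⊓ MulAction.stabilizer G x2) u →
    Ns (MulAction.stabilizer G x1 ⊓ MulAction.stabilizer G x2) f →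
    u * u ∈ MulAction.stabilizer G x1 ⊓ MulAction.stabilizer G x2 →
    f * f ∈ MulAction.stabilizer G x1 ⊓ MulAction.stabilizer G x2 →
    d x1 (u • x1) = d x1 x2 + d x2 (u • x1) → d x2 (f • x2) = d x2 x1 + d x1 (f • x2) →
    ¬ (u • x1 = x2 ∧ f • x2 = x1) →
    (∀ h ∈ MulAction.stabilizer G x1 ⊓ MulAction.stabilizer G x2, h * u * (h * u) ≠ 1) →
    (∀ h ∈ MulAction.stabilizer G x1 ⊓ MulAction.stabilizer G x2, h * f * (h * f) ≠ 1) →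
    Blk R (La (MulAction.stabilizer G x1 ⊓ MulAction.stabilizer G x2) u)
      (La (MulAction.stabilizer G x1 ⊓ MulAction.stabilizer G x2) f)

/-- Good pairs. -/
inductive GQ : V → V → Prop
  | reg {x1 x2 : V} : ROW.RgW R G x1 x2 → GQ x1 x2
  | step {x1 x2 : V} : HS R G d x1 x2 →
      (∀ f : G, f • f • x1 = x1 → d x1 (f • x1) = d x1 x2 + d x2 (f • x1) →
        ¬ Ns (MulAction.stabilizer G x1 ⊓ MulAction.stabilizer G x2) f → GQ x1 (f • x1)) →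
      (∀ f : G, f • f • x2 = x2 → d x2 (f • x2) = d x2 x1 + d x1 (f • x2) →
        ¬ Ns (MulAction.stabilizer G x2 ⊓ MulAction.stabilizer G x1) f → GQ x2 (f • x2)) →
      GQ x1 x2

end Geometry

/-! ### Part 1: forms -/

/-- **FML** (size 200; from `RO.specSCU` with `r = n`, `Ξ = 1`, or from `RO.specSCH`; and `specSWP`): the formula.

PROOF. `a = ψ1 + ε ψ1ᴴ`, `b = χ + ε χᴴ`, `aᴴ = ε a`, `bᴴ = ε b`. `ν^N = 0` gives `(ε a b)^N = 0 = (ε b a)^N` (`ν² = (ε b a, 0; 0, ε a b)`,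
`ν^(2N) = 0`). `T = Tn ε N a b`, `T' = Tn ε N b a = Tᴴ`: `(1 - ε a b) T = 1 = T (1 - ε a b)`, `T' b = b T`. `Λ = UF ψ1 0 χ`,
`Λ + ε Λᴴ = fromBlocks a 1 ε b` (`ε` = `ε • 1`) has the inverse `Φi` with `Φi (1; 0) = (z1; z2)`, `z1 = -ε b T`, `z2 = T`
(`a z1 + z2 = (1 - ε a b) T = 1`, `ε z1 + b z2 = 0`). SCH with `Ξ = (1, 0)`, `ψ' = ψ2`: enough `UF ψ2 0 κ`,
`κ = -(z1ᴴ ψ1 z1 + z1ᴴ z2 + z2ᴴ χ z2) = -(ε T' b ψ1 b T - T' b T + T' χ T) = ε T' χᴴ T - ε T' b ψ1 b T = ε χᴴ + ρ` (`b - χ = ε χᴴ`). SWP (2) with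
`d = ε χᴴ`: `χ + ρ + d - ε dᴴ = κ`. Second: `u = fromBlocks 1 0 (-σ) 1`: `uᴴ (σ, 1; 0, 0) u = (0, 1; 0, 0)`. -/
def SpecFML : Prop :=
  ∀ (A : Type) [Ring A] [StarRing A] (ε : ℤˣ) (n : ℕ),
    (∀ (N : ℕ) (ψ1 ψ2 χ : Matrix (Fin n) (Fin n) A),
      (nu ε (ψ1 + (ε : ℤ) • ψ1ᴴ) 0 (χ + (ε : ℤ) • χᴴ)) ^ N = 0 →
      StablyHyperbolic ε (UF ψ1 0 χ) → StablyHyperbolic ε (UF ψ2 0 (χ + rho ε N ψ1 χ)) →
      StablyHyperbolic ε (UF (ψ1 + ψ2) 0 χ)) ∧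
    ∀ σ : Matrix (Fin n) (Fin n) A, StablyHyperbolic ε (UF σ 0 0)

/-- **FMR** (size 200): the polarization of `ρ`, and the index.

PROOF. (1) With the notation of FML, `κ = ε χᴴ + ρ = ε T' χᴴ T - ε T' b ψ b T`: `ε κᴴ = T' χ T - T' b ψᴴ b T`, so
`κ + ε κᴴ = T' b T - ε T' b a b T = T' b (1 - ε a b) T = T' b`, and `ρ + ε ρᴴ = T' b - ε χᴴ - χ = T' b - b`. (2) `(ε b a)^i b ∈ E (2 i + 1) s (!s)`-type:
for `a ∈ E 1 (!s) s`, `b ∈ E 1 s (!s)` the product `(b a)^i ∈ E (2 i) s s` for `i ≥ 1`, so `T' b - b = ∑_{1 ≤ i < N} (ε b a)^i b ∈ E 3 s (!s)` (`mono`;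
`N ≥ 1`). (3) `ν' = nu ε s' 0 r = fromBlocks 0 (ε r) s' 0`: as in `ROK/NEN.lean` (there `a`, `b'`): the blocks of `ν'^(2 j)` are in `E (4 j)`, those of
`ν'^(2 j + 1)` in `E (4 j + 1)`. -/
def SpecFMR : Prop :=
  ∀ (A : Type) [Ring A] [StarRing A] (ε : ℤˣ) (n N : ℕ),
    (∀ ψ χ : Matrix (Fin n) (Fin n) A,
      (nu ε (ψ + (ε : ℤ) • ψᴴ) 0 (χ + (ε : ℤ) • χᴴ)) ^ N = 0 →
      rho ε N ψ χ + (ε : ℤ) • (rho ε N ψ χ)ᴴ =
        Tn ε N (χ + (ε : ℤ) • χᴴ) (ψ + (ε : ℤ) • ψᴴ) * (χ + (ε : ℤ) • χᴴ) - (χ + (ε : ℤ) • χᴴ)) ∧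
    ∀ E : ℕ → Bool → Bool → AddSubgroup (Matrix (Fin n) (Fin n) A), EFam E N → 1 ≤ N →
      (∀ s : Bool, ∀ a ∈ E 1 (!s) s, ∀ b ∈ E 1 s (!s), Tn ε N b a * b - b ∈ E 3 s (!s)) ∧
      (3 ≤ N → ∀ s' ∈ E 1 false true, ∀ r ∈ E 3 true false, (nu ε s' 0 r) ^ (N - 1) = 0)

/-- **SPR** (size 200; see `RO/KSP.lean`): supports.

PROOF. Put `Θ k s t = {z | ∃ j, k ≤ j ∧ Wd L c X2 ∅ j s t z}`. `Θ k s r * Θ l r t ⊆ Θ (k + l) s t` (`mWDA` (2) for `Sub1 L X1 X2 ∅ Yp Ym c`), `L ⊆ Θ 0 s s`,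
`(Θ k s t)⁻¹ ⊆ Θ k (!t) (!s)`. (1) `ψ`, `a` are supported in `c ⊆ Θ 1 false true`, `χ`, `χᴴ`, `b` in `X2 ⊆ Θ 1 true false`. `(ε b a)^i` in
`Θ (2 i) true true`, `(ε a b)^i` in `Θ (2 i) false false`; `T' χᴴ T - χᴴ = ∑_{(i, j) ≠ (0, 0)} (ε b a)^i χᴴ (ε a b)^j` (`N ≥ 1`) in `Θ 3 true false`; for the
second term of `ρ`: `b ψ b` in `Θ 3 true false`. (2) the same with the roles exchanged: `ψ2`, `a2` in `c`, `χ`, `b` in `X2`: `rho ε N χ ψ2` is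
supported in `Θ 3 false true` and `c ⊆ Θ 1 false true`; `Θ 0 false true = V1 L c X2`. -/
def SpecSPR : Prop :=
  ∀ (R G : Type) [Ring R] [StarRing R] [Group G] (L : Subgroup G) (X1 X2 Yp Ym c : Set G),
    PPK L X1 X2 ∅ Yp Ym → Pt L X1 c → ∀ (ε : ℤˣ) (n N : ℕ), 1 ≤ N →
    ∀ ψ χ : Matrix (Fin n) (Fin n) (MonoidAlgebra R G), SuppIn c ψ → SuppIn X2 χ →
    SuppIn (V3 L c X2) (rho ε N ψ χ) ∧ SuppIn (V1 L c X2) (ψ + rho ε N χ ψ)

/-! ### Part 2: the data of words -/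

/-- **DWU** (size 280): uniqueness.

PROOF. `Sub1 L X1 X2 ∅ Yp Ym c` for `c = c1, c2`. `mWDA`, `mWDK`, `RO.specUNQ`. Letters: `XX c X2 ∅ false true = c`, `XX c X2 ∅ true false = X2`, the
others are empty; so a word `Wd L c X2 ∅ (k + 1) true t z` is `z = z0 * z'`, `z0 ∈ X2`, `Wd k false t z'`, and
`Wd L c X2 ∅ (k + 1) false t z` is `z = e0 * z'`, `e0 ∈ c`, `Wd k true t z'`. (1) induction on `YK` (WDA (4)).
(2) `y ∈ Y true`: `y ∈ L`, or `y = z y2`, `z ∈ V3 L c1 X2` (`≥ 3` letters), `y2 ∈ Y false ⊆ Ym`: `y = z0 (e0 y')`, `z0 ∈ X2`, `e0 ∈ c1`, `y' ∈ Yp`.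
(3) `y ∈ Y false`: `y ∈ L`, or `y = e0 y'`, `e0 ∈ c2`, `y' ∈ Yp`.
(4) For words `w : Wd L c2 X2 ∅ k s true`, `w' : Wd L c2 X2 ∅ k' s true` and `y, y' ∈ Y true`, `w y = w' y'` ⟹ `w⁻¹ w' ∈ L`: induction on `k` (all `k'`).
Both empty: clear. Both nonempty: UNQ: the first letters satisfy `x' = x l` and have the same type, `w1 y = (l w1') y'`. `w = h ∈ L`,
`w' = x (e w2')`, `x ∈ X2`, `e ∈ c2` (`s = true`): `h y = x (e (w2' y'))`; `y ∈ L`: contradiction to WDK (1); `y = z0 (e0 y1)` by (2): UNQ for `h z0`, `x`: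
`x = h z0 l`, `e0 y1 = (l e) (w2' y')`, UNQ: `e0⁻¹ l e ∈ L`, so `e ∈ c1` and `e ∈ c2`: contradiction to `c1 ∩ c2 = ∅`. Symmetric case: the same.
(5) For words `w : Wd L c1 X2 ∅ k s false`, `w'` and `y, y' ∈ Y false`: the same; `w = h`, `w' = e w1'`, `e ∈ c1`: `h y = e (w1' y')`, `y = e0 y1`, `e0 ∈ c2` by (3):
`(h e0)⁻¹ e ∈ L`, so `e ∈ c2`: contradiction. -/
def SpecDWU : Prop :=
  ∀ (G : Type) [Group G] (L : Subgroup G) (X1 X2 Yp Ym c1 c2 : Set G), PPK L X1 X2 ∅ Yp Ym →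
    Pt L X1 c1 → Pt L X1 c2 → (∀ x ∈ c1, x ∉ c2) →
    (∀ s y, y ∈ YS L (V1 L c2 X2) (V3 L c1 X2) s → y ∈ YB Yp Ym s) ∧
    Disj L (V1 L c2 X2) (YS L (V1 L c2 X2) (V3 L c1 X2) true) ∧
    Disj L (V3 L c1 X2) (YS L (V1 L c2 X2) (V3 L c1 X2) false)

/-- **DWP** (size 250, dep `SpecDWU`): the words are data (as in `ROK/BLK.lean`, `ROK/DRC.lean`).

PROOF. `PingPong`: `X1l`, `X1r`, `X1i` (`V1`): `mWDA` (1), (3) (a word from `true` to `false` has an inverse of the same type); `X1n`: `mWNI`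
(`z⁻¹ = z` gives `z z = 1`). The same for `V3` (the number of letters is unchanged). `X3 = ∅`: trivial. `Yp1`, `Ym1`: `YK.base`; `Ypl`, `Yml`:
cases; `X1Y`: `sa`, `X2Y`: `sb`; `u1`, `u2`: DWU. `yy`: DWU (1) and `yy`. `xh`: `z = z 1`, `mWDK` (words with `k + 1` letters; a word from `true` to
`false` is not empty). `cj`: `mWDK` (2 b) and DWU (1). Second part: fields of `PingPong` and `PPK` for subsets (`u1`, `u2`: `Disj` of
subsets). -/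
def SpecDWP : Prop :=
  ∀ (G : Type) [Group G] (L : Subgroup G) (X1 X2 Yp Ym : Set G), PPK L X1 X2 ∅ Yp Ym →
    (∀ c1 c2 : Set G, Pt L X1 c1 → Pt L X1 c2 → (∀ x ∈ c1, x ∉ c2) →
      PPK L (V1 L c2 X2) (V3 L c1 X2) ∅ (YS L (V1 L c2 X2) (V3 L c1 X2) true)
        (YS L (V1 L c2 X2) (V3 L c1 X2) false)) ∧
    ∀ c c' : Set G, Pt L X1 c → Pt L X2 c' → PPK L c c' ∅ Yp Ym

/-- **DWG** (size 120): the geometry.

PROOF. `ne`, `st` unchanged. For a word `Wd L c X2 ∅ k s t z` and `p ∈ DD d x1 x2 t`: `z p ∈ DD d x1 x2 s`, by induction (`mv` for the letters;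
elements of `L` fix `x1`, `x2`, `iso`). -/
def SpecDWG : Prop :=
  ∀ (G V : Type) [Group G] [MulAction G V] (d : V → V → ℕ), TM G d →
    ∀ (L : Subgroup G) (X1 X2 : Set G) (x1 x2 : V), Geo d L X1 X2 ∅ x1 x2 →
    (∀ c1 c2 : Set G, Pt L X1 c1 → Pt L X1 c2 → Geo d L (V1 L c2 X2) (V3 L c1 X2) ∅ x1 x2) ∧
    ∀ c c' : Set G, Pt L X1 c → Pt L X2 c' → Geo d L c c' ∅ x1 x2

/-! ### Part 3: additivity -/

/-- **LNR** (size 280, deps `SpecFML`, `SpecFMR`, `SpecSPR`, `SpecDWP`, `SpecDWG`): additivity.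

PROOF. `a_i = ψ_i + ε ψ_iᴴ`, `a = a_1 + a_2`, `b = χ + ε χᴴ`. `mEFA` for `a`, `0`, `b`: `E = EE L (nu ε a 0 b)`, `EFam E N`; `a_i = cutM c_i a ∈ E 1 false true` (`c_1`, `c_2` are
disjoint), `b = ε • (ε • b) ∈ E 1 true false`. `RO.specKNA`: `(nu ε a_1 0 b)^N = 0`, `(nu ε a_2 0 b)^N = 0`, and `(nu ε b 0 a_2)^N = 0`
(`INDAux.swap_zero`). `ρ = rho ε N ψ1 χ`, `ρ' = rho ε N χ ψ2`, `σ = ψ2 + ρ'`. FML for `ψ1, ψ2, χ`: enough `UF ψ2 0 (χ + ρ)`; exchange (`specSWP` (1)): enough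
`UF (χ + ρ) 0 ψ2`; FML for `χ, ρ, ψ2`: enough `UF χ 0 ψ2` (exchange of `UF ψ2 0 χ`) and `UF ρ 0 σ`; exchange: enough `UF σ 0 ρ`. FMR:
`r = ρ + ε ρᴴ = Tn ε N b a_1 * b - b ∈ E 3 true false`, `s = σ + ε σᴴ = a_2 + (Tn ε N a_2 b * a_2 - a_2) ∈ E 1 false true` (`mono`). Supports (SPR): `σ` in
`V1 L c2 X2`, `ρ` in `V3 L c1 X2`. If `N ≤ 3`: `r = 0` (`mono`, `zero`), `specTAT` for `X = V3` (`X2i`, `X2n` of DWP), `δ = -ε`: `ρ = c - ε cᴴ`, so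
`UF σ 0 ρ` follows from `UF σ 0 0` (`specSWP` (2)), FML second part. If `3 ≤ N`: FMR: `(nu ε s 0 r)^(N - 1) = 0`, and the hypothesis `Cl (N - 1)` for
the data of DWP, DWG. -/
def SpecLNR : Prop :=
  ∀ (R G V : Type) [Ring R] [StarRing R] [Group G] [MulAction G V] (d : V → V → ℕ), TM G d →
    ∀ (N : ℕ) (x1 x2 : V), 1 ≤ N → (3 ≤ N → Cl R G d (N - 1) x1 x2) →
    ∀ (L : Subgroup G) (X1 X2 Yp Ym : Set G), PPK L X1 X2 ∅ Yp Ym → Geo d L X1 X2 ∅ x1 x2 →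
    ∀ c1 c2 : Set G, Pt L X1 c1 → Pt L X1 c2 → (∀ x ∈ c1, x ∉ c2) →
    ∀ (ε : ℤˣ) (n : ℕ) (ψ1 ψ2 χ : Matrix (Fin n) (Fin n) (MonoidAlgebra R G)), SuppIn c1 ψ1 →
    SuppIn c2 ψ2 → SuppIn X2 χ →
    (nu ε (ψ1 + ψ2 + (ε : ℤ) • (ψ1 + ψ2)ᴴ) 0 (χ + (ε : ℤ) • χᴴ)) ^ N = 0 →
    StablyHyperbolic ε (UF ψ1 0 χ) → StablyHyperbolic ε (UF ψ2 0 χ) →
    StablyHyperbolic ε (UF (ψ1 + ψ2) 0 χ)

/-- **DCM** (size 250, deps `SpecFML`, `SpecLNR`): decomposition into pieces.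

PROOF. (A) Claim for data, by induction on the number of the nonzero coefficients of `ψ` (with index `N`, `χ` in `X2`): if
`UF (cutM (D2 L x) ψ) 0 χ` is stably hyperbolic for all `x` in the support of `ψ` then so is `UF ψ 0 χ`. `ψ = 0`: exchange and FML second part
(`UF 0 0 χ`; see `specSWP` (1)). Otherwise choose `x`, `c2 = D2 L x`, `c1 = {y | y ∈ X1 ∧ y ∉ D2 L x}`; `ψ = cutM c1 ψ + cutM c2 ψ`. `cutM c1 ψ` has fewer
coefficients, index `N` (`mEFA`, `RO.specKNA` with `a0 = cutM c1 a`), and for `y` in its support `cutM (D2 L y) (cutM c1 ψ) = cutM (D2 L y) ψ`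
(`D2 L y` and `D2 L x` are disjoint). LNR. (B) Let now `x` be fixed, `ψ' = cutM (D2 L x) ψ`, index `N`. Exchange (`specSWP` (1), `ROK.specSYK` (3), (4): data
`X2`, `X1`, ends `x2`, `x1`; `Cl R G d (N - 1) x2 x1` follows from `Cl R G d (N - 1) x1 x2` by exchange; `INDAux.swap_zero`): (A) for `χ`. So it is enough to
consider `ψ'`, `χ'` supported in `D2 L x`, `D2 L y`: the hypothesis. -/
def SpecDCM : Prop :=
  ∀ (R G V : Type) [Ring R] [StarRing R] [Group G] [MulAction G V] (d : V → V → ℕ), TM G d →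
    ∀ (N : ℕ) (x1 x2 : V), 1 ≤ N → (3 ≤ N → Cl R G d (N - 1) x1 x2) →
    ∀ (L : Subgroup G) (X1 X2 Yp Ym : Set G), PPK L X1 X2 ∅ Yp Ym → Geo d L X1 X2 ∅ x1 x2 →
    (∀ x ∈ X1, ∀ y ∈ X2, ∀ (ε : ℤˣ) (n : ℕ) (ψ χ : Matrix (Fin n) (Fin n) (MonoidAlgebra R G)),
      SuppIn (D2 L x) ψ → SuppIn (D2 L y) χ →
      (nu ε (ψ + (ε : ℤ) • ψᴴ) 0 (χ + (ε : ℤ) • χᴴ)) ^ N = 0 → StablyHyperbolic ε (UF ψ 0 χ)) →
    ∀ (ε : ℤˣ) (n : ℕ) (ψ χ : Matrix (Fin n) (Fin n) (MonoidAlgebra R G)), SuppIn X1 ψ →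
    SuppIn X2 χ → (nu ε (ψ + (ε : ℤ) • ψᴴ) 0 (χ + (ε : ℤ) • χᴴ)) ^ N = 0 →
    StablyHyperbolic ε (UF ψ 0 χ)

/-! ### Part 4: single pieces -/

/-- **SGU** (size 180, dep `SpecFML`): an unstable flip.

PROOF. `mELM` for `g` (`Sub1`: `mSBK` (4)); its hypothesis: `mBLK`, `mBLG`: the block `La (Kg L g) g`, `BX L X1 X2 ∅ g` is data with the ends `x1`, `g x1`, `g g x1 = x1`,
`d x1 (g x1) = d x1 x2 + d x2 (g x1)` (`mv` for `g ∈ X1`, `x1 ∈ DD d x1 x2 true`); `L = stabilizer x1 ⊓ stabilizer x2` (`st`), so `HU` gives `SE` and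
`Blk`. `cutM (dc L g)ᶜ ψ = 0`; `UF 0 0 χ`: FML second part and `specSWP` (1). -/
def SpecSGU : Prop :=
  ∀ (R G V : Type) [Ring R] [StarRing R] [Group G] [MulAction G V] (d : V → V → ℕ),
    TM G d → ∀ x1 x2 : V, HU R G d x1 x2 →
    ∀ (L : Subgroup G) (X1 X2 Yp Ym : Set G), PPK L X1 X2 ∅ Yp Ym → Geo d L X1 X2 ∅ x1 x2 →
    ∀ g ∈ X1, g * g ∈ L → ¬ Ns L g →
    ∀ (ε : ℤˣ) (n : ℕ) (ψ χ : Matrix (Fin n) (Fin n) (MonoidAlgebra R G)), SuppIn (dc L g) ψ →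
    SuppIn X2 χ → IsNilpotent (nu ε (ψ + (ε : ℤ) • ψᴴ) 0 (χ + (ε : ℤ) • χᴴ)) →
    StablyHyperbolic ε (UF ψ 0 χ)

/-- **SGN** (size 180, deps `SpecDWP`, `SpecDWG`): a stable flip and no flips.

PROOF. `dc L g = La L g` (`Ns`). `La L g ⊆ X1` is a part (`Pt`; inverses: `g⁻¹ = (g g)⁻¹ g`). DWP, DWG (second parts, `c' = X2`): data `La L g`, `X2`, `Yp`,
`Ym`. `mSTY`: for a half `W` of `X2`, `3 ≤ N`, `χ'` with support in `XD (La L g) W` and index `N - 1`: data by `mDRC`, `ROK.specDRG`, so `Cl (N - 1)`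
applies. -/
def SpecSGN : Prop :=
  ∀ (R G V : Type) [Ring R] [StarRing R] [Group G] [MulAction G V] (d : V → V → ℕ), TM G d →
    ∀ (N : ℕ) (x1 x2 : V), 1 ≤ N → (3 ≤ N → Cl R G d (N - 1) x1 x2) →
    ∀ (L : Subgroup G) (X1 X2 Yp Ym : Set G), PPK L X1 X2 ∅ Yp Ym → Geo d L X1 X2 ∅ x1 x2 →
    ∀ g ∈ X1, g * g ∈ L → Ns L g →
    ∀ (ε : ℤˣ) (n : ℕ) (ψ χ : Matrix (Fin n) (Fin n) (MonoidAlgebra R G)), SuppIn (dc L g) ψ →
    SuppIn X2 χ → (∀ i j x, (χ i j).coeff x ≠ 0 → ¬ Flip L x) →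
    (nu ε (ψ + (ε : ℤ) • ψᴴ) 0 (χ + (ε : ℤ) • χᴴ)) ^ N = 0 → StablyHyperbolic ε (UF ψ 0 χ)

/-- **SGS** (size 280, deps `SpecFML`, `SpecSGU`, `SpecSGN`): single pieces.

PROOF. `L = stabilizer x1 ⊓ stabilizer x2` (`st`, `subst`). If `Flip L x` there is `g = x h ∈ dc L x`, `g g ∈ L` (`ROTAux.exists_flip`), `g ∈ X1`,
`D2 L x = dc L x = dc L g`; otherwise no element of `D2 L x` is a flip. Cases: `x`, `y` no flips: `mNWT`. `x` a flip with `¬ Ns L g`: SGU. `y` a flip,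
`f = y h`, `¬ Ns L f`: exchange (`specSWP` (1), `ROK.specSYK`, `INDAux.swap_zero`) and SGU for the ends `x2`, `x1` (`HU R G d x2 x1`; `inf_comm`).
`x` a flip with `Ns L g`, `y` no flip: SGN. `y` a flip with `Ns L f`, `x` no flip: exchange and SGN (`Cl` exchanged, as in DCM). Both flips, `Ns`:
`HS`: `g x1 ∈ DD d x1 x2 false`, `f x2 ∈ DD d x1 x2 true` (`mv`); if `g x1 = x2` and `f x2 = x1` then `g⁻¹ x2 = x1`, `f⁻¹ x1 = x2`, and
(`g g`, `f f` fix `x1`, `x2`) `g x2 = x1`, `f x1 = x2`, so `g⁻¹ f ∈ L` fixes `x1`, `x2`, `f ∈ g L ⊆ X1`; so `f = f 1 ∈ Ym` (`X1Y`) and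
`f = f 1 ∈ Yp` (`X2Y`), `f ∈ L` (`yy`): contradiction to `xh`. `h g ∈ X1` for `h ∈ L` (`X1l`), so `(h g)⁻¹ ≠ h g` (`X1n`), the same for `h f ∈ X2`: the
last two premises of `HS`. `dc L g = La L g`, `dc L f = La L f`, `Blk`. -/
def SpecSGS : Prop :=
  ∀ (R G V : Type) [Ring R] [StarRing R] [Group G] [MulAction G V] (d : V → V → ℕ), TM G d →
    ∀ (N : ℕ) (x1 x2 : V), 1 ≤ N → (3 ≤ N → Cl R G d (N - 1) x1 x2) → HU R G d x1 x2 →
    HU R G d x2 x1 → HS R G d x1 x2 →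
    ∀ (L : Subgroup G) (X1 X2 Yp Ym : Set G), PPK L X1 X2 ∅ Yp Ym → Geo d L X1 X2 ∅ x1 x2 →
    ∀ x ∈ X1, ∀ y ∈ X2, ∀ (ε : ℤˣ) (n : ℕ) (ψ χ : Matrix (Fin n) (Fin n) (MonoidAlgebra R G)),
      SuppIn (D2 L x) ψ → SuppIn (D2 L y) χ →
      (nu ε (ψ + (ε : ℤ) • ψᴴ) 0 (χ + (ε : ℤ) • χᴴ)) ^ N = 0 → StablyHyperbolic ε (UF ψ 0 χ)

/-! ### Part 5: the theorem -/

/-- **CLM** (size 100, deps `SpecDCM`, `SpecSGS`): the claim for all `N`, and `SE`.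

PROOF. Induction on `N` (DCM, SGS). `SE`: `IsNilpotent` gives `N ≥ 1`. -/
def SpecCLM : Prop :=
  ∀ (R G V : Type) [Ring R] [StarRing R] [Group G] [MulAction G V] (d : V → V → ℕ), TM G d →
    ∀ x1 x2 : V, HU R G d x1 x2 → HU R G d x2 x1 → HS R G d x1 x2 →
      (∀ N, 1 ≤ N → Cl R G d N x1 x2) ∧ SE R G d x1 x2

/-- **GQS** (size 80, dep `SpecCLM`): good pairs.

PROOF. Induction on `GQ`: `reg`: `ROW.se_of_rgW WAB.mBTW`. `step`: `HU R G d x1 x2`, `HU R G d x2 x1` by induction; CLM. -/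
def SpecGQS : Prop :=
  ∀ (R G V : Type) [Ring R] [StarRing R] [Group G] [MulAction G V] (d : V → V → ℕ), TM G d →
    ∀ x1 x2 : V, GQ R G d x1 x2 → SE R G d x1 x2

/-- **CHN** (size 250): chains.

PROOF. Let `(x, y)` be an exchanged pair with `P x y` (the path contains `v`, `w` in this order) which is not good. Then it is not `RgW`, so `HS`
(hypothesis `hline`, for the pair itself), so there is `f` with `¬ Ns K f`, `K = G_x ∩ G_y`, and (a) `f f x = x`, `d x (f x) = d x y + d y (f x)`, `(x, f x)` not good, or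
(b) `f f y = y`, `d y (f y) = d y x + d x (f y)`, `(y, f y)` not good, so (`gq_symm`: `GQ` is symmetric, by induction: `HS` is symmetric, because `Blk`
is (`specSWP` (1), `INDAux.swap_zero`), `ROW.rgW_symm`) `(f y, y)` not good. The new pair `(x', y')` is exchanged by `f`; `d x' y' = d x' x + d x y + d y y'`;
`P x' y'` (`FinalAux.Btw`, `ROK/Final.lean`, or distances in the tree). `K' = G_x' ∩ G_y' < K`: in case (a) an element which fixes `x` and `f x` fixes `y`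
(`ROK.specTFA` (1)), and if `K' = K` then `f K f⁻¹ = K` (because `f` exchanges `x` and `f x`, `f K' f⁻¹ = K'`), a contradiction to `¬ Ns K f`. Dependent
choice (`exists_seq`..): a sequence of pairs none of which is `RgW`: contradiction to `hchain`. -/
def SpecCHN : Prop :=
  ∀ (R G V : Type) [Ring R] [StarRing R] [Group G] [MulAction G V] (d : V → V → ℕ), TM G d →
    ∀ v w : V,
    (∀ x y : V, d x y = d x v + d v w + d w y → (∃ g : G, g • x = y ∧ g • y = x) →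
      ROW.RgW R G x y ∨ HS R G d x y) →
    (∀ x y : ℕ → V, (∀ i, d (x i) (y i) = d (x i) v + d v w + d w (y i)) →
      (∀ i, ∃ g : G, g • x i = y i ∧ g • y i = x i) →
      (∀ i, d (x (i + 1)) (y (i + 1)) = d (x (i + 1)) (x i) + d (x i) (y i) + d (y i) (y (i + 1))) →
      (∀ i, MulAction.stabilizer G (x (i + 1)) ⊓ MulAction.stabilizer G (y (i + 1)) <
        MulAction.stabilizer G (x i) ⊓ MulAction.stabilizer G (y i)) →
      ∃ i, ROW.RgW R G (x i) (y i)) →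
    (∀ x y : V, GQ R G d x y → GQ R G d y x) ∧
    ∀ x y : V, d x y = d x v + d v w + d w y → (∃ g : G, g • x = y ∧ g • y = x) → GQ R G d x y

/-- **FLL** (size 150, deps `SpecGQS`, `SpecCHN`): the theorem for trees (as `ROW.longSE`, `ROW/Tree.lean`).

PROOF. `mMNK` with the ends `w`, `v` (see `ROW/Tree.lean`): for `g` with `g v = v`, `g w ≠ w`, `g g ∈ H`: the pair `(g w, w)` is exchanged and
`d (g w) w = d (g w) v + 1 + 0`, so it is good by CHN, and `SE R G T.dist w (g w)` (symmetric); for `g` with `g w = w`, `g v ≠ v`: the pair `(v, g v)`. -/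
def SpecFLL : Prop :=
  ∀ (R G V : Type) [Ring R] [StarRing R] [Group G] [MulAction G V] (T : SimpleGraph V) (v w : V),
    T.IsTree → (∀ (g : G) (x y : V), T.Adj x y → T.Adj (g • x) (g • y)) → T.Adj v w →
    (∀ g : G, ¬ (g • v = w ∧ g • w = v)) →
    (∀ g : G, g * g = 1 → (g • v = v ↔ g • w = w)) →
    (∀ x y : V, T.dist x y = T.dist x v + 1 + T.dist w y → (∃ g : G, g • x = y ∧ g • y = x) →
      ROW.RgW R G x y ∨ HS R G T.dist x y) →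
    (∀ x y : ℕ → V, (∀ i, T.dist (x i) (y i) = T.dist (x i) v + 1 + T.dist w (y i)) →
      (∀ i, ∃ g : G, g • x i = y i ∧ g • y i = x i) →
      (∀ i, T.dist (x (i + 1)) (y (i + 1)) =
        T.dist (x (i + 1)) (x i) + T.dist (x i) (y i) + T.dist (y i) (y (i + 1))) →
      (∀ i, MulAction.stabilizer G (x (i + 1)) ⊓ MulAction.stabilizer G (y (i + 1)) <
        MulAction.stabilizer G (x i) ⊓ MulAction.stabilizer G (y i)) →
      ∃ i, ROW.RgW R G (x i) (y i)) →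
    ∀ (ε : ℤˣ) (n : ℕ) (ψ μ χ : Matrix (Fin n) (Fin n) (MonoidAlgebra R G)),
      SuppIn {g | g • v = v ∧ g • w ≠ w} ψ → SuppIn {g | g • v = w} μ →
      SuppIn {g | g • w = w ∧ g • v ≠ v} χ →
      IsNilpotent (nu ε (ψ + (ε : ℤ) • ψᴴ) μ (χ + (ε : ℤ) • χᴴ)) →
      StablyHyperbolic ε (UF ψ μ χ)

end Pool.Agent.Lib.MP8a3537.LL
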