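import Pool.Agent.Lib.MP_8a3537_gt.LL.Spec

/-! # folder LL, module CHN: chains of exchanged pairs -/

set_option autoImplicit false

namespace Pool.Agent.Lib.MP8a3537.LL

open Matrix Pool.Agent.Lib.MP8a3537.UV Pool.Agent.Lib.MP8a3537.AU Pool.Agent.Lib.MP8a3537.RO
open Pool.Agent.Lib.MP8a3537.ROK

namespace CHNM

section

variable {R G V : Type} [Ring R] [StarRing R] [Group G] [MulAction G V] {d : V → V → ℕ}

theorem blk_symm {Xa Xb : Set G} (h : Blk R Xa Xb) : Blk R Xb Xa := by
  intro ε n ψ χ hψ hχ hn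
  have h1 := (specSwp (MonoidAlgebra R G) ε n ψ 0 χ).1
  rw [conjTranspose_zero] at h1
  apply h1
  refine h ε n χ ψ hχ hψ ?_
  obtain ⟨l, hl⟩ := hn
  refine ⟨l, ?_⟩
  have h2 := INDAux.swap_zero ε (ψ + (ε : ℤ) • ψᴴ) 0 (χ + (ε : ℤ) • χᴴ) l hl
  rw [conjTranspose_zero] at h2
  exact h2

theorem hs_symm {x1 x2 : V} (h : HS R G d x1 x2) : HS R G d x2 x1 := by
  intro u f hu hf huu hff h1 h2 h3 h5 h6
  rw [inf_comm] at hu hf huu hff h5 h6 ⊢
  exact blk_symm (h f u hf hu hff huu h2 h1 (fun h4 => h3 ⟨h4.2, h4.1⟩) h6 h5)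

theorem gq_symm {x y : V} (h : GQ R G d x y) : GQ R G d y x := by
  cases h with
  | reg h => exact GQ.reg (ROW.rgW_symm h)
  | step h1 h2 h3 => exact GQ.step (hs_symm h1) h3 h2

theorem lt_of (hd : TM G d) {x y : V} {f : G} (h1 : f • f • x = x)
    (h2 : d x (f • x) = d x y + d y (f • x))
    (h3 : ¬ Ns (MulAction.stabilizer G x ⊓ MulAction.stabilizer G y) f) :
    MulAction.stabilizer G x ⊓ MulAction.stabilizer G (f • x) <
      MulAction.stabilizer G x ⊓ MulAction.stabilizer G y := by
  have hle : MulAction.stabilizer G x ⊓ MulAction.stabilizer G (f • x) ≤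
      MulAction.stabilizer G x ⊓ MulAction.stabilizer G y := by
    intro g hg
    rw [Subgroup.mem_inf, MulAction.mem_stabilizer_iff, MulAction.mem_stabilizer_iff] at hg ⊢
    exact ⟨hg.1, (specTFA G V d hd).1 g x y (f • x) h2 hg.1 hg.2⟩
  refine lt_of_le_of_ne hle fun he => h3 ?_
  have hi : f⁻¹ • x = f • x := by
    rw [inv_smul_eq_iff]
    exact h1.symm
  intro h hh
  rw [← he] at hh ⊢
  rw [Subgroup.mem_inf, MulAction.mem_stabilizer_iff, MulAction.mem_stabilizer_iff] at hh
  obtain ⟨a, b⟩ := hh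
  constructor
  · rw [Subgroup.mem_inf, MulAction.mem_stabilizer_iff, MulAction.mem_stabilizer_iff]
    constructor
    · rw [mul_smul, mul_smul, hi, b, h1]
    · rw [mul_smul, mul_smul, inv_smul_smul, a]
  · rw [Subgroup.mem_inf, MulAction.mem_stabilizer_iff, MulAction.mem_stabilizer_iff]
    constructor
    · rw [mul_smul, mul_smul, b, inv_smul_smul]
    · rw [mul_smul, mul_smul, h1, a, hi]

end

end CHNM

open CHNM in
theorem specCHN : SpecCHN := by
  intro R G V _ _ _ _ d hd v w hline hchain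
  refine ⟨fun x y h => gq_symm h, ?_⟩
  intro x0 y0 hP0 hex0
  by_contra hbad0
  let B : Type := {p : V × V // d p.1 p.2 = d p.1 v + d v w + d w p.2 ∧
    (∃ g : G, g • p.1 = p.2 ∧ g • p.2 = p.1) ∧ ¬ GQ R G d p.1 p.2}
  have step : ∀ b : B, ∃ b' : B,
      d b'.1.1 b'.1.2 = d b'.1.1 b.1.1 + d b.1.1 b.1.2 + d b.1.2 b'.1.2 ∧
      MulAction.stabilizer G b'.1.1 ⊓ MulAction.stabilizer G b'.1.2 <
        MulAction.stabilizer G b.1.1 ⊓ MulAction.stabilizer G b.1.2 := by
    rintro ⟨⟨x, y⟩, hP, hex, hbad⟩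
    have hP' : d x y = d x v + d v w + d w y := hP
    have hHS : HS R G d x y := by
      rcases hline x y hP hex with h | h
      · exact absurd (GQ.reg h) hbad
      · exact h
    by_cases hA : ∀ f : G, f • f • x = x → d x (f • x) = d x y + d y (f • x) →
        ¬ Ns (MulAction.stabilizer G x ⊓ MulAction.stabilizer G y) f → GQ R G d x (f • x)
    · by_cases hB : ∀ f : G, f • f • y = y → d y (f • y) = d y x + d x (f • y) →
          ¬ Ns (MulAction.stabilizer G y ⊓ MulAction.stabilizer G x) f → GQ R G d y (f • y)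
      · exact absurd (GQ.step hHS hA hB) hbad
      · push Not at hB
        obtain ⟨f, h1, h2, h3, h4⟩ := hB
        refine ⟨⟨(f • y, y), ?_, ⟨f, h1, rfl⟩, fun h => h4 (gq_symm h)⟩, ?_, ?_⟩
        · show d (f • y) y = d (f • y) v + d v w + d w y
          have t1 := hd.tri (f • y) x v
          have t2 := hd.tri (f • y) v y
          have t3 := hd.tri v w y
          have c1 := hd.cm (f • y) y
          have c2 := hd.cm y x
          have c3 := hd.cm x (f • y)
          omega
        · show d (f • y) y = d (f • y) x + d x y + d y y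
          have t1 := (hd.d0 y y).2 rfl
          have c1 := hd.cm (f • y) y
          have c2 := hd.cm y x
          have c3 := hd.cm x (f • y)
          omega
        · show MulAction.stabilizer G (f • y) ⊓ MulAction.stabilizer G y <
            MulAction.stabilizer G x ⊓ MulAction.stabilizer G y
          rw [inf_comm (MulAction.stabilizer G (f • y)), inf_comm (MulAction.stabilizer G x)]
          exact lt_of hd h1 h2 h3
    · push Not at hA
      obtain ⟨f, h1, h2, h3, h4⟩ := hA
      refine ⟨⟨(x, f • x), ?_, ⟨f, rfl, h1⟩, h4⟩, ?_, ?_⟩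
      · show d x (f • x) = d x v + d v w + d w (f • x)
        have t1 := hd.tri w y (f • x)
        have t2 := hd.tri x v (f • x)
        have t3 := hd.tri v w (f • x)
        omega
      · show d x (f • x) = d x x + d x y + d y (f • x)
        have t1 := (hd.d0 x x).2 rfl
        omega
      · exact lt_of hd h1 h2 h3
  choose nx hn1 hn2 using step
  let s : ℕ → B := fun n => Nat.rec ⟨(x0, y0), hP0, hex0, hbad0⟩ (fun _ b => nx b) n
  obtain ⟨i, hi⟩ := hchain (fun n => (s n).1.1) (fun n => (s n).1.2) (fun n => (s n).2.1)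
    (fun n => (s n).2.2.1) (fun n => hn1 (s n)) (fun n => hn2 (s n))
  exact (s i).2.2.2 (GQ.reg hi)

end Pool.Agent.Lib.MP8a3537.LL
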