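import Pool.Agent.Lib.MP_8a3537_gt.LL.Spec

/-!
# LL, module DWG: the geometry of the words
-/

namespace Pool.Agent.Lib.MP8a3537.LL

open Matrix Pool.Agent.Lib.MP8a3537.UV Pool.Agent.Lib.MP8a3537.AU Pool.Agent.Lib.MP8a3537.RO
open Pool.Agent.Lib.MP8a3537.ROK

namespace DWGM

variable {G V : Type} [Group G] [MulAction G V] {d : V → V → ℕ} {L : Subgroup G}
  {X1 X2 c c' : Set G} {x1 x2 : V}

/-- The elements of `L` preserve the two sides. -/
theorem base (hT : TM G d) (hG : Geo d L X1 X2 ∅ x1 x2) {h : G} (hh : h ∈ L) {s : Bool} {p : V}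
    (hp : p ∈ DD d x1 x2 s) : h • p ∈ DD d x1 x2 s := by
  obtain ⟨h1, h2⟩ := (hG.st h).1 hh
  have e1 : d x1 (h • p) = d x1 p := by
    have := hT.iso h x1 p
    rwa [h1] at this
  have e2 : d x2 (h • p) = d x2 p := by
    have := hT.iso h x2 p
    rwa [h2] at this
  cases s
  · have hp' : d x1 p = d x1 x2 + d x2 p := hp
    show d x1 (h • p) = d x1 x2 + d x2 (h • p)
    rw [e1, e2, hp']
  · have hp' : d x2 p = d x2 x1 + d x1 p := hp
    show d x2 (h • p) = d x2 x1 + d x1 (h • p)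
    rw [e1, e2, hp']

/-- The letters. -/
theorem letter (hG : Geo d L X1 X2 ∅ x1 x2) (hc : ∀ x ∈ c, x ∈ X1) (hc' : ∀ x ∈ c', x ∈ X2)
    {s t : Bool} {x : G} {p : V} (hx : x ∈ XX c c' ∅ s t) (hp : p ∈ DD d x1 x2 t) :
    x • p ∈ DD d x1 x2 s := by
  cases s <;> cases t
  · exact absurd (show x⁻¹ ∈ (∅ : Set G) from hx) (Set.notMem_empty _)
  · exact hG.mv false true x p (hc x hx) hp
  · exact hG.mv true false x p (hc' x hx) hp
  · exact absurd (show x ∈ (∅ : Set G) from hx) (Set.notMem_empty _)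

/-- The words. -/
theorem word (hT : TM G d) (hG : Geo d L X1 X2 ∅ x1 x2) (hc : ∀ x ∈ c, x ∈ X1)
    (hc' : ∀ x ∈ c', x ∈ X2) {k : ℕ} {s t : Bool} {z : G} (hz : Wd L c c' ∅ k s t z) :
    ∀ p ∈ DD d x1 x2 t, z • p ∈ DD d x1 x2 s := by
  induction hz with
  | base hh => exact fun p hp => base hT hG hh hp
  | cons hx _ ih =>
    intro p hp
    rw [mul_smul]
    exact letter hG hc hc' hx (ih p hp)

end DWGM

theorem specDWG : SpecDWG := by
  intro G V _ _ d hT L X1 X2 x1 x2 hG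
  refine ⟨?_, ?_⟩
  · intro c1 c2 h1 h2
    refine ⟨hG.ne, hG.st, ?_⟩
    intro s t x p hx hp
    cases s <;> cases t
    · exact absurd (show x⁻¹ ∈ (∅ : Set G) from hx) (Set.notMem_empty _)
    · obtain ⟨k, hk⟩ := (show x ∈ V1 L c2 X2 from hx)
      exact DWGM.word hT hG h2.sub (fun _ h => h) hk p hp
    · obtain ⟨k, _, hk⟩ := (show x ∈ V3 L c1 X2 from hx)
      exact DWGM.word hT hG h1.sub (fun _ h => h) hk p hp
    · exact absurd (show x ∈ (∅ : Set G) from hx) (Set.notMem_empty _)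
  · intro c c' h h'
    refine ⟨hG.ne, hG.st, ?_⟩
    intro s t x p hx hp
    exact DWGM.letter hG h.sub h'.sub hx hp

end Pool.Agent.Lib.MP8a3537.LL
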