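import Pool.Agent.Lib.MP_8a3537_gt.LL.Spec

/-!
# LL, module DWP: the words are data
-/

set_option autoImplicit false

namespace Pool.Agent.Lib.MP8a3537.LL

open Matrix Pool.Agent.Lib.MP8a3537.UV Pool.Agent.Lib.MP8a3537.AU Pool.Agent.Lib.MP8a3537.RO
open Pool.Agent.Lib.MP8a3537.ROK

namespace DWPM

variable {G : Type} [Group G] {L : Subgroup G} {X1 X2 Yp Ym c : Set G}

theorem sub1 (P : PPK L X1 X2 ∅ Yp Ym) (hc : Pt L X1 c) : Sub1 L X1 X2 ∅ Yp Ym c where
  pp := P.toPingPong
  sub := hc.sub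
  bi := hc.bi
  inv := hc.inv

theorem yk_left {Xa Xb : Set G} (ha : ∀ l ∈ L, ∀ x ∈ Xa, l * x ∈ Xa)
    (hb : ∀ l ∈ L, ∀ x ∈ Xb, l * x ∈ Xb) {s : Bool} {y l : G} (hl : l ∈ L)
    (hy : YK L Xa Xb s y) : YK L Xa Xb s (l * y) := by
  cases hy with
  | base h => exact YK.base (L.mul_mem hl h)
  | @sa x y hx hy =>
    rw [← mul_assoc]
    exact YK.sa (ha l hl x hx) hy
  | @sb x y hx hy =>
    rw [← mul_assoc]
    exact YK.sb (hb l hl x hx) hy

/-- A word which changes the type has a letter. -/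
theorem wd_pos {c' c'' : Set G} {k : ℕ} {s : Bool} {z : G} (h : Wd L c c' c'' k s (!s) z) :
    ∃ m, k = m + 1 := by
  cases k with
  | zero => cases s <;> cases h
  | succ m => exact ⟨m, rfl⟩

end DWPM

open DWPM in
/-- **Module DWP**. -/
theorem specDWP (hDWU : SpecDWU) : SpecDWP := by
  intro G _ L X1 X2 Yp Ym P
  refine ⟨?_, ?_⟩
  · intro c1 c2 hc1 hc2 hd
    obtain ⟨u0, u1, u2⟩ := hDWU G L X1 X2 Yp Ym c1 c2 P hc1 hc2 hd
    obtain ⟨-, kk⟩ := mWDK G L X1 X2 ∅ Yp Ym P
    have s1 := sub1 P hc1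
    have s2 := sub1 P hc2
    obtain ⟨a1, -, a3, -, -⟩ := mWDA G L X1 X2 ∅ Yp Ym c1 s1
    obtain ⟨b1, -, b3, -, -⟩ := mWDA G L X1 X2 ∅ Yp Ym c2 s2
    obtain ⟨ka, ka'⟩ := kk c1 s1
    obtain ⟨kb, kb'⟩ := kk c2 s2
    have V1l : ∀ l ∈ L, ∀ x ∈ V1 L c2 X2, l * x ∈ V1 L c2 X2 := by
      rintro l hl x ⟨k, hk⟩
      exact ⟨k, (b1 k false true x l hl hk).1⟩
    have V1r : ∀ l ∈ L, ∀ x ∈ V1 L c2 X2, x * l ∈ V1 L c2 X2 := by
      rintro l hl x ⟨k, hk⟩
      exact ⟨k, (b1 k false true x l hl hk).2⟩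
    have V3l : ∀ l ∈ L, ∀ x ∈ V3 L c1 X2, l * x ∈ V3 L c1 X2 := by
      rintro l hl x ⟨k, h3, hk⟩
      exact ⟨k, h3, (a1 k true false x l hl hk).1⟩
    have V3r : ∀ l ∈ L, ∀ x ∈ V3 L c1 X2, x * l ∈ V3 L c1 X2 := by
      rintro l hl x ⟨k, h3, hk⟩
      exact ⟨k, h3, (a1 k true false x l hl hk).2⟩
    have y7 : ∀ y ∈ YS L (V1 L c2 X2) (V3 L c1 X2) true, y ∈ Yp := fun y hy => u0 true y hy
    have y7' : ∀ y ∈ YS L (V1 L c2 X2) (V3 L c1 X2) false, y ∈ Ym := fun y hy => u0 false y hy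
    refine
      { X1l := V1l
        X1r := V1r
        X1i := ?_
        X1n := ?_
        X2l := V3l
        X2r := V3r
        X2i := ?_
        X2n := ?_
        X3l := fun _ _ x hx => hx.elim
        X3r := fun _ _ x hx => hx.elim
        Yp1 := YK.base L.one_mem
        Ym1 := YK.base L.one_mem
        Ypl := fun l hl y hy => yk_left V1l V3l hl hy
        Yml := fun l hl y hy => yk_left V1l V3l hl hy
        X1Y := fun x hx y hy => YK.sa hx hy
        X2Y := fun x hx y hy => YK.sb hx hy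
        X3Y := fun x hx => hx.elim
        X3Y' := fun x hx => (show x⁻¹ ∈ (∅ : Set G) from hx).elim
        d23 := fun _ _ _ _ x' hx' => hx'.elim
        d13 := fun _ _ _ _ x' hx' => (show x'⁻¹ ∈ (∅ : Set G) from hx').elim
        u1 := u1
        u2 := u2
        u3 := fun x hx => hx.elim
        u3' := fun x hx => (show x⁻¹ ∈ (∅ : Set G) from hx).elim
        yy := fun y h1 h2 => P.yy y (y7 y h1) (y7' y h2)
        xh := ?_
        cj := ?_ }
    · rintro x ⟨k, hk⟩
      exact ⟨k, b3 k false true x hk⟩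
    · rintro x ⟨k, hk⟩ he
      refine mWNI G L X1 X2 ∅ Yp Ym c2 s2 k false x hk ?_
      nth_rewrite 1 [← he]
      exact inv_mul_cancel x
    · rintro x ⟨k, h3, hk⟩
      exact ⟨k, h3, a3 k true false x hk⟩
    · rintro x ⟨k, -, hk⟩ he
      refine mWNI G L X1 X2 ∅ Yp Ym c1 s1 k true x hk ?_
      nth_rewrite 1 [← he]
      exact inv_mul_cancel x
    · intro s t x hx hxL
      cases s <;> cases t
      · exact (show x⁻¹ ∈ (∅ : Set G) from hx).elim
      · obtain ⟨k, hk⟩ := hx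
        obtain ⟨m, rfl⟩ := wd_pos (s := false) hk
        have h1 := kb m false true x 1 hk P.Yp1
        rw [mul_one] at h1
        exact h1 hxL
      · obtain ⟨k, -, hk⟩ := hx
        obtain ⟨m, rfl⟩ := wd_pos (s := true) hk
        have h1 := ka m true false x 1 hk P.Ym1
        rw [mul_one] at h1
        exact h1 hxL
      · exact (show x ∈ (∅ : Set G) from hx).elim
    · intro s t x h hx hh
      cases s <;> cases t
      · exact (show x⁻¹ ∈ (∅ : Set G) from hx).elim
      · obtain ⟨k, hk⟩ := hx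
        rcases kb' k false true x h hk hh with h1 | h1
        · exact Or.inl h1
        · right
          intro y hy hy'
          exact h1 y (y7 y hy) (y7 _ hy')
      · obtain ⟨k, -, hk⟩ := hx
        rcases ka' k true false x h hk hh with h1 | h1
        · exact Or.inl h1
        · right
          intro y hy hy'
          exact h1 y (y7' y hy) (y7' _ hy')
      · exact (show x ∈ (∅ : Set G) from hx).elim
  · intro c c' hc hc'
    have hsub : ∀ s t x, x ∈ XX c c' ∅ s t → x ∈ XX X1 X2 ∅ s t := by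
      intro s t x hx
      cases s <;> cases t
      · exact (show x⁻¹ ∈ (∅ : Set G) from hx).elim
      · exact hc.sub x hx
      · exact hc'.sub x hx
      · exact (show x ∈ (∅ : Set G) from hx).elim
    exact
      { X1l := hc.bi.1
        X1r := hc.bi.2
        X1i := hc.inv
        X1n := fun x hx => P.X1n x (hc.sub x hx)
        X2l := hc'.bi.1
        X2r := hc'.bi.2
        X2i := hc'.inv
        X2n := fun x hx => P.X2n x (hc'.sub x hx)
        X3l := P.X3l
        X3r := P.X3r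
        Yp1 := P.Yp1
        Ym1 := P.Ym1
        Ypl := P.Ypl
        Yml := P.Yml
        X1Y := fun x hx => P.X1Y x (hc.sub x hx)
        X2Y := fun x hx => P.X2Y x (hc'.sub x hx)
        X3Y := P.X3Y
        X3Y' := P.X3Y'
        d23 := fun _ _ _ _ x' hx' => hx'.elim
        d13 := fun _ _ _ _ x' hx' => (show x'⁻¹ ∈ (∅ : Set G) from hx').elim
        u1 := fun x hx x' hx' => P.u1 x (hc.sub x hx) x' (hc.sub x' hx')
        u2 := fun x hx x' hx' => P.u2 x (hc'.sub x hx) x' (hc'.sub x' hx')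
        u3 := P.u3
        u3' := P.u3'
        yy := P.yy
        xh := fun s t x hx => P.xh s t x (hsub s t x hx)
        cj := fun s t x h hx => P.cj s t x h (hsub s t x hx) }

end Pool.Agent.Lib.MP8a3537.LL
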