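import Pool.Agent.Lib.MP_8a3537_gt.LL.Spec

/-! # folder LL, module DWU: uniqueness of the words -/

set_option autoImplicit false

namespace Pool.Agent.Lib.MP8a3537.LL

open Matrix Pool.Agent.Lib.MP8a3537.UV Pool.Agent.Lib.MP8a3537.AU Pool.Agent.Lib.MP8a3537.RO
open Pool.Agent.Lib.MP8a3537.ROK

namespace DWUM

section

variable {G : Type} [Group G] {L : Subgroup G} {X1 X2 Yp Ym c : Set G}

theorem wd_zero {k : ℕ} {s t : Bool} {z : G} (h : Wd L c X2 ∅ k s t z) (hk : k = 0) :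
    s = t ∧ z ∈ L := by
  cases h with
  | base h => exact ⟨rfl, h⟩
  | cons _ _ => exact absurd hk (Nat.succ_ne_zero _)

theorem wd_true {k : ℕ} {t : Bool} {z : G} (h : Wd L c X2 ∅ (k + 1) true t z) :
    ∃ x z', x ∈ X2 ∧ Wd L c X2 ∅ k false t z' ∧ z = x * z' := by
  cases h with
  | @cons _ _ r _ x z' hx hz =>
    cases r with
    | true => exact absurd hx (Set.notMem_empty _)
    | false => exact ⟨x, z', hx, hz, rfl⟩

theorem wd_false {k : ℕ} {t : Bool} {z : G} (h : Wd L c X2 ∅ (k + 1) false t z) :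
    ∃ x z', x ∈ c ∧ Wd L c X2 ∅ k true t z' ∧ z = x * z' := by
  cases h with
  | @cons _ _ r _ x z' hx hz =>
    cases r with
    | true => exact ⟨x, z', hx, hz, rfl⟩
    | false =>
      exfalso
      have h1 : x ∈ Xinv (∅ : Set G) := hx
      exact absurd h1 (Set.notMem_empty _)

theorem sub1 (hP : PPK L X1 X2 ∅ Yp Ym) (hc : Pt L X1 c) : Sub1 L X1 X2 ∅ Yp Ym c :=
  ⟨hP.toPingPong, hc.sub, hc.bi, hc.inv⟩

/-- (4) and (5) -/
theorem uniq (hP : PPK L X1 X2 ∅ Yp Ym) (hc : Pt L X1 c) (t : Bool) (S : Set G)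
    (hS : ∀ y ∈ S, y ∈ YB Yp Ym t)
    (hN : ∀ h ∈ L, ∀ (k : ℕ) (w : G), Wd L c X2 ∅ (k + 1) t t w → ∀ y ∈ S, ∀ y' ∈ S,
      h * y ≠ w * y') :
    ∀ (k k' : ℕ) (s : Bool) (w w' y y' : G), Wd L c X2 ∅ k s t w → Wd L c X2 ∅ k' s t w' →
      y ∈ S → y' ∈ S → w * y = w' * y' → w⁻¹ * w' ∈ L := by
  obtain ⟨a1, a2, a3, a4, a5⟩ := mWDA G L X1 X2 ∅ Yp Ym c (sub1 hP hc)
  intro k
  induction k with
  | zero =>
    intro k' s w w' y y' hw hw' hy hy' he
    obtain ⟨hst, hwL⟩ := wd_zero hw rfl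
    subst hst
    cases k' with
    | zero => exact L.mul_mem (L.inv_mem hwL) (wd_zero hw' rfl).2
    | succ k' => exact absurd he (hN w hwL k' w' hw' y hy y' hy')
  | succ k ih =>
    intro k' s w w' y y' hw hw' hy hy' he
    cases k' with
    | zero =>
      obtain ⟨hst, hwL⟩ := wd_zero hw' rfl
      subst hst
      exact absurd he.symm (hN w' hwL k w hw y' hy' y hy)
    | succ k' =>
      cases s with
      | true =>
        obtain ⟨x, w1, hx, hw1, rfl⟩ := wd_true hw
        obtain ⟨x', w1', hx', hw1', rfl⟩ := wd_true hw'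
        have m1 : w1 * y ∈ Ym := a4 k false t w1 y hw1 (hS y hy)
        have m2 : w1' * y' ∈ Ym := a4 k' false t w1' y' hw1' (hS y' hy')
        have e1 : x * (w1 * y) = x' * (w1' * y') := by rw [← mul_assoc, ← mul_assoc, he]
        have hl := hP.u2 x hx x' hx' _ m1 _ m2 e1
        have e2 : w1 * y = (x⁻¹ * x' * w1') * y' := by
          have := congrArg (fun g => x⁻¹ * g) e1
          simpa [mul_assoc] using this
        have h3 := ih k' false w1 (x⁻¹ * x' * w1') y y' hw1 (a1 k' false t w1' _ hl hw1').1 hy hy' e2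
        have e4 : (x * w1)⁻¹ * (x' * w1') = w1⁻¹ * (x⁻¹ * x' * w1') := by group
        rw [e4]
        exact h3
      | false =>
        obtain ⟨x, w1, hx, hw1, rfl⟩ := wd_false hw
        obtain ⟨x', w1', hx', hw1', rfl⟩ := wd_false hw'
        have m1 : w1 * y ∈ Yp := a4 k true t w1 y hw1 (hS y hy)
        have m2 : w1' * y' ∈ Yp := a4 k' true t w1' y' hw1' (hS y' hy')
        have e1 : x * (w1 * y) = x' * (w1' * y') := by rw [← mul_assoc, ← mul_assoc, he]
        have hl := hP.u1 x (hc.sub x hx) x' (hc.sub x' hx') _ m1 _ m2 e1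
        have e2 : w1 * y = (x⁻¹ * x' * w1') * y' := by
          have := congrArg (fun g => x⁻¹ * g) e1
          simpa [mul_assoc] using this
        have h3 := ih k' true w1 (x⁻¹ * x' * w1') y y' hw1 (a1 k' true t w1' _ hl hw1').1 hy hy' e2
        have e4 : (x * w1)⁻¹ * (x' * w1') = w1⁻¹ * (x⁻¹ * x' * w1') := by group
        rw [e4]
        exact h3

end

end DWUM

open DWUM in
theorem specDWU : SpecDWU := by
  intro G _ L X1 X2 Yp Ym c1 c2 hP h1 h2 h12
  obtain ⟨a1, a2, a3, a4, a5⟩ := mWDA G L X1 X2 ∅ Yp Ym c1 (sub1 hP h1)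
  obtain ⟨b1, b2, b3, b4, b5⟩ := mWDA G L X1 X2 ∅ Yp Ym c2 (sub1 hP h2)
  obtain ⟨-, hK⟩ := mWDK G L X1 X2 ∅ Yp Ym hP
  have hK1 := (hK c1 (sub1 hP h1)).1
  have hK2 := (hK c2 (sub1 hP h2)).1
  have p1 : ∀ s y, y ∈ YS L (V1 L c2 X2) (V3 L c1 X2) s → y ∈ YB Yp Ym s := by
    intro s y hy
    have hy' : YK L (V1 L c2 X2) (V3 L c1 X2) s y := hy
    clear hy
    induction hy' with
    | @base s l hl =>
      cases s with
      | true =>
        have := hP.Ypl l hl 1 hP.Yp1
        rw [mul_one] at this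
        exact this
      | false =>
        have := hP.Yml l hl 1 hP.Ym1
        rw [mul_one] at this
        exact this
    | @sa x y hx hz ih =>
      obtain ⟨k, hk⟩ := hx
      exact b4 k false true x y hk ih
    | @sb x y hx hz ih =>
      obtain ⟨k, -, hk⟩ := hx
      exact a4 k true false x y hk ih
  have p2 : ∀ y, y ∈ YS L (V1 L c2 X2) (V3 L c1 X2) true → y ∈ L ∨
      ∃ z0 ∈ X2, ∃ e0 ∈ c1, ∃ y' ∈ Yp, y = z0 * (e0 * y') := by
    intro y hy
    have hy' : YK L (V1 L c2 X2) (V3 L c1 X2) true y := hy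
    cases hy' with
    | base hl => exact Or.inl hl
    | @sb x y hx hz =>
      right
      obtain ⟨k, hk3, hk⟩ := hx
      obtain ⟨k, rfl⟩ : ∃ j, k = j + 1 + 1 := ⟨k - 2, by omega⟩
      obtain ⟨z0, z', hz0, hz', rfl⟩ := wd_true hk
      obtain ⟨e0, z'', he0, hz'', rfl⟩ := wd_false hz'
      refine ⟨z0, hz0, e0, he0, z'' * y, a4 k true false z'' y hz'' (p1 false y hz), ?_⟩
      group
  have p3 : ∀ y, y ∈ YS L (V1 L c2 X2) (V3 L c1 X2) false → y ∈ L ∨
      ∃ e0 ∈ c2, ∃ y' ∈ Yp, y = e0 * y' := by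
    intro y hy
    have hy' : YK L (V1 L c2 X2) (V3 L c1 X2) false y := hy
    cases hy' with
    | base hl => exact Or.inl hl
    | @sa x y hx hz =>
      right
      obtain ⟨k, hk⟩ := hx
      cases k with
      | zero => exact absurd (wd_zero hk rfl).1 Bool.false_ne_true
      | succ k =>
        obtain ⟨e0, z', he0, hz', rfl⟩ := wd_false hk
        refine ⟨e0, he0, z' * y, b4 k true true z' y hz' (p1 true y hz), ?_⟩
        group
  refine ⟨p1, ?_, ?_⟩
  · intro x hx x' hx' y hy y' hy' he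
    obtain ⟨k, hk⟩ := hx
    obtain ⟨k', hk'⟩ := hx'
    refine uniq hP h2 true (YS L (V1 L c2 X2) (V3 L c1 X2) true) (p1 true) ?_ k k' false x x' y y'
      hk hk' hy hy' he
    intro h hh j w hw u hu u' hu' he
    rcases p2 u hu with hL | ⟨z0, hz0, e0, he0, u1, hu1, rfl⟩
    · exact hK2 j true true w u' hw (p1 true u' hu') (he ▸ L.mul_mem hh hL)
    · obtain ⟨v, w1, hv, hw1, rfl⟩ := wd_true hw
      cases j with
      | zero => exact absurd (wd_zero hw1 rfl).1 Bool.false_ne_true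
      | succ j =>
        obtain ⟨e, w2, hee, hw2, rfl⟩ := wd_false hw1
        have hwu : w2 * u' ∈ Yp := b4 j true true w2 u' hw2 (p1 true u' hu')
        have q1 : h * z0 ∈ X2 := hP.X2l h hh z0 hz0
        have q2 : e0 * u1 ∈ Ym := hP.X1Y e0 (h1.sub e0 he0) u1 hu1
        have q3 : e * (w2 * u') ∈ Ym := hP.X1Y e (h2.sub e hee) _ hwu
        have q4 : (h * z0) * (e0 * u1) = v * (e * (w2 * u')) := by
          have : (h * z0) * (e0 * u1) = h * (z0 * (e0 * u1)) := by group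
          rw [this, he]
          group
        have hl := hP.u2 _ q1 v hv _ q2 _ q3 q4
        have q5 : e0 * u1 = ((h * z0)⁻¹ * v * e) * (w2 * u') := by
          have := congrArg (fun g => (h * z0)⁻¹ * g) q4
          simpa [mul_assoc] using this
        have q6 : (h * z0)⁻¹ * v * e ∈ c2 := h2.bi.1 _ hl e hee
        have q7 := hP.u1 e0 (h1.sub e0 he0) _ (h2.sub _ q6) u1 hu1 _ hwu q5
        have q8 : e0 * (e0⁻¹ * ((h * z0)⁻¹ * v * e)) ∈ c1 := h1.bi.2 _ q7 e0 he0
        rw [mul_inv_cancel_left] at q8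
        exact h12 _ q8 q6
  · intro x hx x' hx' y hy y' hy' he
    obtain ⟨k, -, hk⟩ := hx
    obtain ⟨k', -, hk'⟩ := hx'
    refine uniq hP h1 false (YS L (V1 L c2 X2) (V3 L c1 X2) false) (p1 false) ?_ k k' true x x' y y'
      hk hk' hy hy' he
    intro h hh j w hw u hu u' hu' he
    rcases p3 u hu with hL | ⟨e0, he0, u1, hu1, rfl⟩
    · exact hK1 j false false w u' hw (p1 false u' hu') (he ▸ L.mul_mem hh hL)
    · obtain ⟨e, w1, hee, hw1, rfl⟩ := wd_false hw
      have hwu : w1 * u' ∈ Yp := a4 j true false w1 u' hw1 (p1 false u' hu')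
      have q1 : h * e0 ∈ c2 := h2.bi.1 h hh e0 he0
      have q4 : (h * e0) * u1 = e * (w1 * u') := by
        have : (h * e0) * u1 = h * (e0 * u1) := by group
        rw [this, he]
        group
      have hl := hP.u1 _ (h2.sub _ q1) e (h1.sub e hee) u1 hu1 _ hwu q4
      have q8 : (h * e0) * ((h * e0)⁻¹ * e) ∈ c2 := h2.bi.2 _ hl _ q1
      rw [mul_inv_cancel_left] at q8
      exact h12 _ hee q8

end Pool.Agent.Lib.MP8a3537.LL
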