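import Pool.Agent.Lib.MP_8a3537_gt.LL.Spec

/-!
# Only lines matter (MP_8a3537_gt, folder LL), module FLL: the theorem for trees
-/

set_option autoImplicit false

namespace Pool.Agent.Lib.MP8a3537.LL

open Matrix Pool.Agent.Lib.MP8a3537.UV Pool.Agent.Lib.MP8a3537.AU Pool.Agent.Lib.MP8a3537.RO
open Pool.Agent.Lib.MP8a3537.ROK

/-- module FLL -/
theorem specFLL (hGQS : SpecGQS) (hCHN : SpecCHN) : SpecFLL := by
  intro R G V _ _ _ _ T v w hT hact hvw hinv htwo hline hchain ε n ψ μ χ hψ hμ hχ hnil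
  have hd : TM G (V := V) T.dist := specFPT G V T hT hact
  have hG := specTRG G V T v w hT hact hvw hinv
  have h1 : T.dist v w = 1 := SimpleGraph.dist_eq_one_iff_adj.2 hvw
  obtain ⟨hsym, hgood⟩ := hCHN R G V T.dist hd v w
    (by
      intro x y hxy
      rw [h1] at hxy
      exact hline x y hxy)
    (by
      intro x y hxy
      simp only [h1] at hxy
      exact hchain x y hxy)
  obtain ⟨Yp, Ym, hP⟩ := specTRK G V T v w hT hact hvw hinv htwo
  refine mMNK R G V T.dist hd _ _ _ _ Yp Ym w v hP hG ?_ ?_ ε n ψ μ χ hψ hμ hχ hnil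
  · intro g hg hgg
    have h3 : (g * g) • w = w := hgg.2
    rw [mul_smul] at h3
    have h4 : g • w ∈ DD T.dist w v false := by
      refine hG.mv false true g w ⟨hg.1, hg.2⟩ ?_
      change T.dist v w = T.dist v w + T.dist w w
      rw [(hd.d0 w w).2 rfl, Nat.add_zero]
    have h5 : T.dist w (g • w) = T.dist w v + T.dist v (g • w) := h4
    refine hGQS R G V T.dist hd w (g • w) (hsym _ _ (hgood (g • w) w ?_ ⟨g, h3, rfl⟩))
    rw [hd.cm (g • w) w, h5, (hd.d0 w w).2 rfl, hd.cm w v, hd.cm v (g • w)]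
    omega
  · intro g hg hgg
    have h3 : (g * g) • v = v := hgg.1
    rw [mul_smul] at h3
    have h4 : g • v ∈ DD T.dist w v true := by
      refine hG.mv true false g v ⟨hg.1, hg.2⟩ ?_
      change T.dist w v = T.dist w v + T.dist v v
      rw [(hd.d0 v v).2 rfl, Nat.add_zero]
    have h5 : T.dist v (g • v) = T.dist v w + T.dist w (g • v) := h4
    refine hGQS R G V T.dist hd v (g • v) (hgood v (g • v) ?_ ⟨g, rfl, h3⟩)
    rw [h5, (hd.d0 v v).2 rfl]
    omega

end Pool.Agent.Lib.MP8a3537.LL
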