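import Pool.Agent.Lib.MP_8a3537_gt.LL.Spec
import Pool.Agent.Lib.MP_8a3537_gt.ROK.NEN

/-!
# LL, module FMR: the polarization of `rho` and the nilpotency index
-/

set_option autoImplicit false

namespace Pool.Agent.Lib.MP8a3537.LL

open Matrix Pool.Agent.Lib.MP8a3537.UV Pool.Agent.Lib.MP8a3537.AU Pool.Agent.Lib.MP8a3537.RO
open Pool.Agent.Lib.MP8a3537.ROK

namespace FMRM

section One

variable {A : Type} [Ring A] [StarRing A] {n : ℕ}

theorem ct_smul (ε : ℤˣ) (M : Matrix (Fin n) (Fin n) A) :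
    ((ε : ℤ) • M)ᴴ = (ε : ℤ) • Mᴴ := by
  rcases Int.units_eq_one_or ε with rfl | rfl <;> simp

omit [StarRing A] in
theorem ss (ε : ℤˣ) (M : Matrix (Fin n) (Fin n) A) : (ε : ℤ) • ((ε : ℤ) • M) = M := by
  rcases Int.units_eq_one_or ε with rfl | rfl <;> simp

theorem ct_pol (ε : ℤˣ) (ψ : Matrix (Fin n) (Fin n) A) :
    (ψ + (ε : ℤ) • ψᴴ)ᴴ = (ε : ℤ) • (ψ + (ε : ℤ) • ψᴴ) := by
  rw [conjTranspose_add, ct_smul, conjTranspose_conjTranspose, smul_add, ss, add_comm]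

theorem ct_Tn (ε : ℤˣ) (N : ℕ) {a b : Matrix (Fin n) (Fin n) A} (ha : aᴴ = (ε : ℤ) • a)
    (hb : bᴴ = (ε : ℤ) • b) : (Tn ε N a b)ᴴ = Tn ε N b a := by
  unfold Tn
  rw [conjTranspose_sum]
  refine Finset.sum_congr rfl fun i _ => ?_
  rw [conjTranspose_pow, ct_smul, conjTranspose_mul, ha, hb, smul_mul_smul_comm]
  congr 2
  rcases Int.units_eq_one_or ε with rfl | rfl <;> simp

/-- The powers of the block matrix. -/
theorem nu_pow_two (ε : ℤˣ) (a b : Matrix (Fin n) (Fin n) A) (N : ℕ) :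
    (nu ε a 0 b) ^ (2 * N) =
      fromBlocks (((ε : ℤ) • (b * a)) ^ N) 0 0 (((ε : ℤ) • (a * b)) ^ N) := by
  have h2 : (nu ε a 0 b) ^ 2 = fromBlocks ((ε : ℤ) • (b * a)) 0 0 ((ε : ℤ) • (a * b)) := by
    rw [pow_two, nu, fromBlocks_multiply]
    simp only [conjTranspose_zero, mul_zero, zero_mul, zero_add, add_zero, smul_mul_assoc,
      mul_smul_comm, smul_zero]
  induction N with
  | zero => simp [fromBlocks_one]
  | succ N ih =>
    rw [Nat.mul_succ, pow_add, ih, h2, fromBlocks_multiply, pow_succ, pow_succ]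
    simp

theorem ab_zero {ε : ℤˣ} {a b : Matrix (Fin n) (Fin n) A} {N : ℕ}
    (h : (nu ε a 0 b) ^ N = 0) :
    ((ε : ℤ) • (b * a)) ^ N = 0 ∧ ((ε : ℤ) • (a * b)) ^ N = 0 := by
  have h2 : (nu ε a 0 b) ^ (2 * N) = 0 := by
    rw [two_mul, pow_add, h, zero_mul]
  rw [nu_pow_two] at h2
  have h3 : fromBlocks (((ε : ℤ) • (b * a)) ^ N) 0 0 (((ε : ℤ) • (a * b)) ^ N) =
      fromBlocks (0 : Matrix (Fin n) (Fin n) A) 0 0 0 := by
    rw [h2, fromBlocks_zero]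
  rw [fromBlocks_inj] at h3
  exact ⟨h3.1, h3.2.2.2⟩

omit [StarRing A] in
theorem mul_Tn {ε : ℤˣ} {a b : Matrix (Fin n) (Fin n) A} {N : ℕ}
    (h : ((ε : ℤ) • (a * b)) ^ N = 0) : (1 - (ε : ℤ) • (a * b)) * Tn ε N a b = 1 := by
  unfold Tn
  rw [mul_neg_geom_sum, h, sub_zero]

theorem pol_rho (ε : ℤˣ) (N : ℕ) (ψ χ : Matrix (Fin n) (Fin n) A)
    (h : (nu ε (ψ + (ε : ℤ) • ψᴴ) 0 (χ + (ε : ℤ) • χᴴ)) ^ N = 0) :
    rho ε N ψ χ + (ε : ℤ) • (rho ε N ψ χ)ᴴ =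
      Tn ε N (χ + (ε : ℤ) • χᴴ) (ψ + (ε : ℤ) • ψᴴ) * (χ + (ε : ℤ) • χᴴ) -
        (χ + (ε : ℤ) • χᴴ) := by
  have ha := ct_pol ε ψ
  have hb := ct_pol ε χ
  have h1 := mul_Tn (ab_zero h).2
  have hψ : (ε : ℤ) • (ψ + (ε : ℤ) • ψᴴ) = ψᴴ + (ε : ℤ) • ψ := by
    rw [smul_add, ss, add_comm]
  have hχ : (ε : ℤ) • (χ + (ε : ℤ) • χᴴ) = χᴴ + (ε : ℤ) • χ := by
    rw [smul_add, ss, add_comm]
  unfold rho
  generalize ha' : ψ + (ε : ℤ) • ψᴴ = a at *
  generalize hb' : χ + (ε : ℤ) • χᴴ = b at *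
  have hT := ct_Tn ε N ha hb
  have hT' := ct_Tn ε N hb ha
  generalize hT1 : Tn ε N a b = T at *
  generalize hT2 : Tn ε N b a = T' at *
  have e1 : (T' * χᴴ * T)ᴴ = T' * χ * T := by
    rw [conjTranspose_mul, conjTranspose_mul, conjTranspose_conjTranspose, hT, hT', mul_assoc]
  have e2 : (T' * b * ψ * b * T)ᴴ = T' * b * ψᴴ * b * T := by
    rw [conjTranspose_mul, conjTranspose_mul, conjTranspose_mul, conjTranspose_mul, hT, hT', hb]
    rcases Int.units_eq_one_or ε with rfl | rfl <;> simp [mul_assoc]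
  rw [conjTranspose_sub, ct_smul, ct_smul, conjTranspose_sub, e1, e2,
    conjTranspose_conjTranspose]
  simp only [smul_sub, ss]
  have e3 : T' * b = T' * b * ((1 - (ε : ℤ) • (a * b)) * T) := by rw [h1, mul_one]
  have e4 : T' * b * ((1 - (ε : ℤ) • (a * b)) * T) =
      T' * b * T - (ε : ℤ) • (T' * b * a * b * T) := by
    rw [sub_mul, one_mul, mul_sub, smul_mul_assoc, mul_smul_comm]
    simp only [mul_assoc]
  have e5 : T' * b * T = T' * χ * T + (ε : ℤ) • (T' * χᴴ * T) := by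
    nth_rewrite 1 [← hb']
    rw [mul_add, add_mul, mul_smul_comm, smul_mul_assoc]
  have e6 : T' * b * a * b * T = T' * b * ψ * b * T + (ε : ℤ) • (T' * b * ψᴴ * b * T) := by
    nth_rewrite 1 [← ha']
    rw [mul_add, add_mul, add_mul, mul_smul_comm, smul_mul_assoc, smul_mul_assoc]
  have e7 : T' * b - b = T' * χ * T + (ε : ℤ) • (T' * χᴴ * T) -
      ((ε : ℤ) • (T' * b * ψ * b * T) + T' * b * ψᴴ * b * T) - (χ + (ε : ℤ) • χᴴ) := by
    rw [hb']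
    refine congrArg (fun x => x - b) ?_
    rw [e4, e5, e6, smul_add, ss] at e3
    exact e3
  rw [e7]
  abel

end One

section Two

variable {A : Type} [Ring A] [StarRing A] {n N : ℕ}
  {E : ℕ → Bool → Bool → AddSubgroup (Matrix (Fin n) (Fin n) A)}

theorem pow_mul_mem (hE : EFam E N) (s : Bool) {M q : Matrix (Fin n) (Fin n) A}
    (hM : M ∈ E 2 s s) (hq : q ∈ E 1 s (!s)) :
    ∀ i : ℕ, M ^ i * q ∈ E (2 * i + 1) s (!s) := by
  intro i
  induction i with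
  | zero => simpa using hq
  | succ i ih =>
    rw [pow_succ', mul_assoc]
    have h := hE.mul 2 (2 * i + 1) s s (!s) _ _ hM ih
    have e : 2 + (2 * i + 1) = 2 * (i + 1) + 1 := by ring
    rw [e] at h
    exact h

theorem Tn_mem (hE : EFam E N) (hN : 1 ≤ N) (ε : ℤˣ) (s : Bool)
    {a b : Matrix (Fin n) (Fin n) A} (ha : a ∈ E 1 (!s) s) (hb : b ∈ E 1 s (!s)) :
    Tn ε N b a * b - b ∈ E 3 s (!s) := by
  have hM : (ε : ℤ) • (b * a) ∈ E 2 s s :=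
    AddSubgroup.zsmul_mem _ (hE.mul 1 1 s (!s) s b a hb ha) _
  obtain ⟨k, rfl⟩ : ∃ k, N = k + 1 := ⟨N - 1, by omega⟩
  unfold Tn
  rw [Finset.sum_range_succ', pow_zero, add_mul, one_mul, add_sub_cancel_right, Finset.sum_mul]
  apply AddSubgroup.sum_mem
  intro i _
  exact hE.mono 3 (2 * (i + 1) + 1) s (!s) (by omega) (pow_mul_mem hE s hM hb (i + 1))

end Two

end FMRM

open FMRM in
/-- **FMR**. -/
theorem specFMR : SpecFMR := by
  intro A _ _ ε n N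
  refine ⟨fun ψ χ h => pol_rho ε N ψ χ h, fun E hE hN => ⟨fun s a ha b hb =>
    Tn_mem hE hN ε s ha hb, fun h3 s' hs' r hr => ?_⟩⟩
  obtain ⟨k, rfl⟩ : ∃ k, N = k + 3 := ⟨N - 3, by omega⟩
  have e : k + 3 - 1 = (k + 1) + 1 := by omega
  obtain ⟨m11, m12, m21, m22, h11, h12, h21, h22, h⟩ := NENAux.nu_pow hE ε hs' hr (k + 1)
  rw [e, h, NENAux.eq_zero hE (by omega) h11, NENAux.eq_zero hE (by omega) h12,
    NENAux.eq_zero hE (by omega) h21, NENAux.eq_zero hE (by omega) h22, fromBlocks_zero]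

end Pool.Agent.Lib.MP8a3537.LL
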