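import Pool.Agent.Lib.MP_8a3537_gt.LL.Spec

/-! # Only lines matter (MP_8a3537_gt, folder LL), module GQS (helper75) -/

set_option autoImplicit false

namespace Pool.Agent.Lib.MP8a3537.LL

open Matrix Pool.Agent.Lib.MP8a3537.UV Pool.Agent.Lib.MP8a3537.AU Pool.Agent.Lib.MP8a3537.RO
open Pool.Agent.Lib.MP8a3537.ROK

theorem specGQS (hCLM : SpecCLM) : SpecGQS := by
  intro R G V _ _ _ _ d hT x1 x2 h
  induction h with
  | reg h => exact ROW.se_of_rgW WAB.mBTW d h
  | step hS _ _ ih1 ih2 => exact (hCLM R G V d hT _ _ ih1 ih2 hS).2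

end Pool.Agent.Lib.MP8a3537.LL
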