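import Pool.Agent.Lib.MP_8a3537_gt.LL.Spec

/-!
# MP_8a3537_gt, LL: module HLN (helper28)

The line condition is only needed for the elements which exchange the pair exactly.
-/

set_option autoImplicit false

namespace Pool.Agent.Lib.MP8a3537.LL

open Matrix Pool.Agent.Lib.MP8a3537.UV Pool.Agent.Lib.MP8a3537.AU Pool.Agent.Lib.MP8a3537.RO
open Pool.Agent.Lib.MP8a3537.ROK

namespace HLNM

variable {G V : Type} [Group G] [MulAction G V] {d : V → V → ℕ}

/-- if `y` is between `x` and `z` then an element which fixes `x` and `z` fixes `y`. -/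
theorem fix_mid (hd : TM G d) {x y z : V} (h : d x z = d x y + d y z) {k : G} (h1 : k • x = x)
    (h2 : k • z = z) : k • y = y := (specTFA G V d hd).1 k x y z h h1 h2

/-- the stabilizer of the longer pair is the same if `u` normalizes it. -/
theorem stab_eq (hd : TM G d) {x y : V} {u : G}
    (hu : Ns (MulAction.stabilizer G x ⊓ MulAction.stabilizer G y) u)
    (h : d x (u • x) = d x y + d y (u • x)) :
    MulAction.stabilizer G x ⊓ MulAction.stabilizer G (u • x) =
      MulAction.stabilizer G x ⊓ MulAction.stabilizer G y := by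
  ext k
  simp only [Subgroup.mem_inf, MulAction.mem_stabilizer_iff]
  constructor
  · rintro ⟨h1, h2⟩
    exact ⟨h1, fix_mid hd h h1 h2⟩
  · rintro ⟨h1, h2⟩
    refine ⟨h1, ?_⟩
    have h3 := (hu k ⟨h1, h2⟩).2
    have h4 : (u⁻¹ * k * u) • x = x := h3.1
    rw [mul_smul, mul_smul] at h4
    have h5 := congrArg (fun p => u • p) h4
    simpa using h5

end HLNM

open HLNM in
/-- the hypothesis for the exact exchanges implies the line condition. -/
theorem hln (R G V : Type) [Ring R] [StarRing R] [Group G] [MulAction G V] (d : V → V → ℕ)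
    (hd : TM G d) (v w : V)
    (hl : ∀ (x y : V) (g f : G), d x y = d x v + d v w + d w y → g • x = y → g • y = x →
      Ns (MulAction.stabilizer G x ⊓ MulAction.stabilizer G y) f →
      f * f ∈ MulAction.stabilizer G x ⊓ MulAction.stabilizer G y →
      d y (f • y) = d y x + d x (f • y) → f • y ≠ x →
      (∀ h ∈ MulAction.stabilizer G x ⊓ MulAction.stabilizer G y, h * g * (h * g) ≠ 1) →
      (∀ h ∈ MulAction.stabilizer G x ⊓ MulAction.stabilizer G y, h * f * (h * f) ≠ 1) →
      ROW.RgW R G x y ∨ Blk R (La (MulAction.stabilizer G x ⊓ MulAction.stabilizer G y) g)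
        (La (MulAction.stabilizer G x ⊓ MulAction.stabilizer G y) f)) :
    ∀ x y : V, x ≠ y → d x y = d x v + d v w + d w y →
      ROW.RgW R G x y ∨ HS R G d x y := by
  intro x y hne hxy
  by_cases hr : ROW.RgW R G x y
  · exact Or.inl hr
  refine Or.inr ?_
  intro u f hu hf huu hff hux hfy hnd hou hof
  have hK := stab_eq hd hu hux
  have huu' : u • u • x = x := by
    have h : (u * u) • x = x := huu.1
    rwa [mul_smul] at h
  have hff2 : f • f • y = y := by
    have h : (f * f) • y = y := hff.2
    rwa [mul_smul] at h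
  have htfa := specTFA G V d hd
  -- the position of `v`, `w`
  have t1 := hd.tri x v (u • x)
  have t2 := hd.tri v w (u • x)
  have t3 := hd.tri w y (u • x)
  have hxy' : d x (u • x) = d x v + d v w + d w (u • x) := by omega
  -- `x` is between `y` and `f y`, `f y` is between `f x` and `f (u x)`
  have hfne : f • x ≠ f • y := fun h => hne (MulAction.injective f h)
  have i1 : d (f • x) (f • u • x) = d (f • x) (f • y) + d (f • y) (f • u • x) := by
    rw [hd.iso, hd.iso, hd.iso]
    exact hux
  have i2 : d (f • y) y = d (f • y) (f • x) + d (f • x) y := by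
    have e1 : d (f • y) (f • f • y) = d (f • y) (f • x) + d (f • x) (f • f • y) := by
      rw [hd.iso, hd.iso, hd.iso]
      exact hfy
    rwa [hff2] at e1
  have i3 := htfa.2.1 (f • x) (f • y) (f • u • x) y hfne i1 i2
  have c1 := hd.cm (f • u • x) y
  have c2 := hd.cm (f • y) y
  have c3 := hd.cm (f • u • x) (f • y)
  have i4 : d y (f • u • x) = d y (f • y) + d (f • y) (f • u • x) := by omega
  have i5 : d y (f • u • x) = d y x + d x (f • u • x) := htfa.2.2 y x (f • y) (f • u • x) hfy i4
  have i6 := htfa.2.1 y x (f • u • x) (u • x) hne.symm i5 hux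
  have c4 := hd.cm (f • u • x) (u • x)
  have c5 := hd.cm (f • u • x) x
  have c6 := hd.cm (u • x) x
  have i7 : d (u • x) (f • u • x) = d (u • x) x + d x (f • u • x) := by omega
  have hne' : f • u • x ≠ x := by
    intro h
    have h0 : d x (f • u • x) = 0 := (hd.d0 _ _).2 h.symm
    have c7 := hd.cm x (f • y)
    have c8 := hd.iso f y (u • x)
    have h1 : d (f • y) (f • u • x) = 0 := by omega
    have h2 : d x (f • y) = 0 := by omega
    rw [c8] at h1
    exact hnd ⟨((hd.d0 _ _).1 h1).symm, ((hd.d0 _ _).1 h2).symm⟩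
  have key := hl x (u • x) u f hxy' rfl huu' (by rw [hK]; exact hf) (by rw [hK]; exact hff) i7 hne'
    (by rw [hK]; exact hou) (by rw [hK]; exact hof)
  rw [hK] at key
  rcases key with h | h
  · exfalso
    apply hr
    unfold ROW.RgW at h ⊢
    rwa [hK] at h
  · exact h

end Pool.Agent.Lib.MP8a3537.LL
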