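import Pool.Agent.Lib.MP_8a3537_gt.LL.Spec

/-!
# MP_8a3537_gt, LL: module LNR (helper21), additivity
-/

set_option autoImplicit false

namespace Pool.Agent.Lib.MP8a3537.LL

open Matrix Pool.Agent.Lib.MP8a3537.UV Pool.Agent.Lib.MP8a3537.AU Pool.Agent.Lib.MP8a3537.RO
open Pool.Agent.Lib.MP8a3537.ROK

namespace LNRM

section

variable {A : Type} [Ring A] [StarRing A] {n : ℕ}

/-- Exchange. -/
theorem swap (ε : ℤˣ) (ψ χ : Matrix (Fin n) (Fin n) A) (h : StablyHyperbolic ε (UF χ 0 ψ)) :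
    StablyHyperbolic ε (UF ψ 0 χ) := by
  refine (specSwp A ε n ψ 0 χ).1 ?_
  rw [conjTranspose_zero]
  exact h

end

section

variable {R G : Type} [Ring R] [StarRing R] [Group G] {n : ℕ}

theorem supp_pol (ε : ℤˣ) {c : Set G} (hi : ∀ x ∈ c, x⁻¹ ∈ c)
    {ψ : Matrix (Fin n) (Fin n) (MonoidAlgebra R G)} (hψ : SuppIn c ψ) :
    SuppIn c (ψ + (ε : ℤ) • ψᴴ) := by
  intro i j x h
  rw [NWTAux.coeff_sym] at h
  by_cases h1 : (ψ i j).coeff x = 0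
  · have h2 : (ψ j i).coeff x⁻¹ ≠ 0 := by
      intro h2
      apply h
      rw [h1, h2, star_zero, smul_zero, add_zero]
    have h3 := hi _ (hψ j i x⁻¹ h2)
    rwa [inv_inv] at h3
  · exact hψ i j x h1

theorem supp_mono {c X : Set G} (h : ∀ x ∈ c, x ∈ X)
    {ψ : Matrix (Fin n) (Fin n) (MonoidAlgebra R G)} (hψ : SuppIn c ψ) : SuppIn X ψ :=
  fun i j x hx => h x (hψ i j x hx)

theorem supp_add {X : Set G} {ψ ψ' : Matrix (Fin n) (Fin n) (MonoidAlgebra R G)}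
    (hψ : SuppIn X ψ) (hψ' : SuppIn X ψ') : SuppIn X (ψ + ψ') := by
  intro i j x h
  by_cases h1 : (ψ i j).coeff x = 0
  · refine hψ' i j x fun h2 => h ?_
    rw [Matrix.add_apply, MonoidAlgebra.coeff_add, Finsupp.add_apply, h1, h2, add_zero]
  · exact hψ i j x h1

/-- The part of a sum of two matrices with disjoint supports. -/
theorem cut_part {c c' : Set G} {a a' : Matrix (Fin n) (Fin n) (MonoidAlgebra R G)}
    (ha : SuppIn c a) (ha' : SuppIn c' a') (h : ∀ x ∈ c, x ∉ c') : cutM c (a + a') = a := by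
  classical
  refine Matrix.ext fun i j => ?_
  ext x
  have e : (cutM c (a + a') i j).coeff x = (cut c ((a + a') i j)).coeff x := rfl
  rw [e, cut_coeff, Matrix.add_apply, MonoidAlgebra.coeff_add, Finsupp.add_apply]
  by_cases hx : x ∈ c
  · have h1 : (a' i j).coeff x = 0 := by
      by_contra h2
      exact h x hx (ha' i j x h2)
    rw [if_pos hx, h1, add_zero]
  · rw [if_neg hx]
    by_contra h2
    exact hx (ha i j x (Ne.symm h2))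

end

end LNRM

open LNRM in
theorem specLNR (hFML : SpecFML) (hFMR : SpecFMR) (hSPR : SpecSPR) (hDWP : SpecDWP)
    (hDWG : SpecDWG) : SpecLNR := by
  intro R G V _ _ _ _ d hTM N x1 x2 hN hCl L X1 X2 Yp Ym hP hGeo c1 c2 hc1 hc2 hdis ε n ψ1 ψ2 χ
    hψ1 hψ2 hχ hnil hs1 hs2
  have hεε : (ε : ℤ) * (ε : ℤ) = 1 := by
    rcases Int.units_eq_one_or ε with h | h <;> simp [h]
  -- the parts
  have ha1 : SuppIn c1 (ψ1 + (ε : ℤ) • ψ1ᴴ) := supp_pol ε hc1.inv hψ1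
  have ha2 : SuppIn c2 (ψ2 + (ε : ℤ) • ψ2ᴴ) := supp_pol ε hc2.inv hψ2
  have hb : SuppIn X2 (χ + (ε : ℤ) • χᴴ) := supp_pol ε hP.X2i hχ
  have hsum : ψ1 + ψ2 + (ε : ℤ) • (ψ1 + ψ2)ᴴ =
      (ψ1 + (ε : ℤ) • ψ1ᴴ) + (ψ2 + (ε : ℤ) • ψ2ᴴ) := by
    rw [conjTranspose_add, smul_add]
    abel
  have ha : SuppIn X1 (ψ1 + ψ2 + (ε : ℤ) • (ψ1 + ψ2)ᴴ) := by
    rw [hsum]
    exact supp_add (supp_mono hc1.sub ha1) (supp_mono hc2.sub ha2)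
  have h03 : SuppIn (∅ : Set G) (0 : Matrix (Fin n) (Fin n) (MonoidAlgebra R G)) := by
    intro i j x h
    exact absurd rfl h
  obtain ⟨hE, hlet, hblk⟩ := mEFA R G L X1 X2 ∅ Yp Ym hP.toPingPong ε n
    (ψ1 + ψ2 + (ε : ℤ) • (ψ1 + ψ2)ᴴ) 0 (χ + (ε : ℤ) • χᴴ) ha h03 hb (NWTAux.sym_symm ε _)
    (NWTAux.sym_symm ε χ) N hnil
  generalize hEE : EE L (nu ε (ψ1 + ψ2 + (ε : ℤ) • (ψ1 + ψ2)ᴴ) 0 (χ + (ε : ℤ) • χᴴ)) = E
    at hE hlet hblk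
  have hE1 : ψ1 + (ε : ℤ) • ψ1ᴴ ∈ E 1 false true := by
    have h : cutM c1 (ψ1 + ψ2 + (ε : ℤ) • (ψ1 + ψ2)ᴴ) ∈ E 1 false true :=
      hlet false true c1 hc1.bi
    rwa [hsum, cut_part ha1 ha2 hdis] at h
  have hE2 : ψ2 + (ε : ℤ) • ψ2ᴴ ∈ E 1 false true := by
    have h : cutM c2 (ψ1 + ψ2 + (ε : ℤ) • (ψ1 + ψ2)ᴴ) ∈ E 1 false true :=
      hlet false true c2 hc2.bi
    rwa [hsum, add_comm (ψ1 + (ε : ℤ) • ψ1ᴴ), cut_part ha2 ha1 fun x hx hx' => hdis x hx' hx]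
      at h
  have hEb : χ + (ε : ℤ) • χᴴ ∈ E 1 true false := by
    have h : (ε : ℤ) • (χ + (ε : ℤ) • χᴴ) ∈ E 1 true false := hblk true false
    have h5 := AddSubgroup.zsmul_mem _ h (ε : ℤ)
    rwa [smul_smul, hεε, one_smul] at h5
  have hE0 : (0 : Matrix (Fin n) (Fin n) (MonoidAlgebra R G)) ∈ E 1 true true :=
    AddSubgroup.zero_mem _
  -- nilpotency
  have hn1 : (nu ε (ψ1 + (ε : ℤ) • ψ1ᴴ) 0 (χ + (ε : ℤ) • χᴴ)) ^ N = 0 :=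
    (RO.specKNA (MonoidAlgebra R G) ε n n N E hE hN _ _ 0 _ hE1 hE2 hE0 hEb).1
  have hn2 : (nu ε (ψ2 + (ε : ℤ) • ψ2ᴴ) 0 (χ + (ε : ℤ) • χᴴ)) ^ N = 0 :=
    (RO.specKNA (MonoidAlgebra R G) ε n n N E hE hN _ _ 0 _ hE2 hE1 hE0 hEb).1
  have hn3 : (nu ε (χ + (ε : ℤ) • χᴴ) 0 (ψ2 + (ε : ℤ) • ψ2ᴴ)) ^ N = 0 := by
    have h := INDAux.swap_zero ε _ _ _ N hn2
    rwa [conjTranspose_zero] at h
  -- the two eliminations
  obtain ⟨hF1, hF2⟩ := hFML (MonoidAlgebra R G) ε n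
  refine hF1 N ψ1 ψ2 χ hn1 hs1 (swap ε _ _ (hF1 N χ (rho ε N ψ1 χ) ψ2 hn3 (swap ε _ _ hs2)
    (swap ε _ _ ?_)))
  -- the polarizations
  obtain ⟨hR1, hR2⟩ := hFMR (MonoidAlgebra R G) ε n N
  obtain ⟨hR3, hR4⟩ := hR2 E hE hN
  have hr : rho ε N ψ1 χ + (ε : ℤ) • (rho ε N ψ1 χ)ᴴ ∈ E 3 true false := by
    rw [hR1 ψ1 χ hn1]
    exact hR3 true _ hE1 _ hEb
  have hs : (ψ2 + rho ε N χ ψ2) + (ε : ℤ) • (ψ2 + rho ε N χ ψ2)ᴴ ∈ E 1 false true := by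
    have h1 : rho ε N χ ψ2 + (ε : ℤ) • (rho ε N χ ψ2)ᴴ ∈ E 1 false true := by
      rw [hR1 χ ψ2 hn3]
      exact hE.mono 1 3 false true (by omega) (hR3 false _ hEb _ hE2)
    have h2 := AddSubgroup.add_mem _ hE2 h1
    have e : (ψ2 + rho ε N χ ψ2) + (ε : ℤ) • (ψ2 + rho ε N χ ψ2)ᴴ =
        ψ2 + (ε : ℤ) • ψ2ᴴ + (rho ε N χ ψ2 + (ε : ℤ) • (rho ε N χ ψ2)ᴴ) := by
      rw [conjTranspose_add, smul_add]
      abel
    rw [e]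
    exact h2
  -- supports
  have hS1 : SuppIn (V3 L c1 X2) (rho ε N ψ1 χ) :=
    (hSPR R G L X1 X2 Yp Ym c1 hP hc1 ε n N hN ψ1 χ hψ1 hχ).1
  have hS2 : SuppIn (V1 L c2 X2) (ψ2 + rho ε N χ ψ2) :=
    (hSPR R G L X1 X2 Yp Ym c2 hP hc2 ε n N hN ψ2 χ hψ2 hχ).2
  have hPd := (hDWP G L X1 X2 Yp Ym hP).1 c1 c2 hc1 hc2 hdis
  have hGd := (hDWG G V d hTM L X1 X2 x1 x2 hGeo).1 c1 c2 hc1 hc2
  by_cases h3 : 3 ≤ N
  · exact hCl h3 L _ _ _ _ hPd hGd ε n _ _ hS2 hS1 (hR4 h3 _ hs _ hr)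
  · have hr0 : rho ε N ψ1 χ + (ε : ℤ) • (rho ε N ψ1 χ)ᴴ = 0 :=
      hE.zero true false _ (hE.mono N 3 true false (by omega) hr)
    have hr1 : rho ε N ψ1 χ = ((-ε : ℤˣ) : ℤ) • (rho ε N ψ1 χ)ᴴ := by
      rw [Units.val_neg, neg_smul]
      exact eq_neg_of_add_eq_zero_left hr0
    obtain ⟨c0, -, hc0⟩ := specTat R G (V3 L c1 X2) (-ε) n _ hPd.X2i hPd.X2n hS1 hr1
    have h5 := (specSwp (MonoidAlgebra R G) ε n (ψ2 + rho ε N χ ψ2) 0 0).2.1 0 c0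
      (hF2 (ψ2 + rho ε N χ ψ2))
    rw [Units.val_neg, neg_smul, ← sub_eq_add_neg] at hc0
    rw [add_zero, conjTranspose_zero, smul_zero, sub_zero, zero_add, ← hc0] at h5
    exact h5

end Pool.Agent.Lib.MP8a3537.LL
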