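import Pool.Agent.Lib.MP_8a3537_gt.LL.Spec

/-!
# LL, module SGN: a stable flip and no flips
-/

set_option autoImplicit false

namespace Pool.Agent.Lib.MP8a3537.LL

open Matrix Pool.Agent.Lib.MP8a3537.UV Pool.Agent.Lib.MP8a3537.AU Pool.Agent.Lib.MP8a3537.RO
open Pool.Agent.Lib.MP8a3537.ROK

namespace SGNM

theorem dc_sub {G : Type} [Group G] {L : Subgroup G} {g : G} (hN : Ns L g) :
    ∀ x ∈ dc L g, x ∈ La L g := by
  rintro x ⟨h, hh, h', hh', rfl⟩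
  refine ⟨h * (g * h' * g⁻¹), L.mul_mem hh (hN h' hh').1, ?_⟩
  group

theorem ptA {G : Type} [Group G] {L : Subgroup G} {X1 X2 X3 Yp Ym : Set G} {g : G}
    (P : PPK L X1 X2 X3 Yp Ym) (hg : g ∈ X1) (hgg : g * g ∈ L) (hN : Ns L g) :
    Pt L X1 (La L g) where
  sub := by
    rintro x ⟨l, hl, rfl⟩
    exact P.X1l l hl g hg
  bi := by
    constructor
    · rintro h hh x ⟨l, hl, rfl⟩
      exact ⟨h * l, L.mul_mem hh hl, by group⟩
    · rintro h hh x ⟨l, hl, rfl⟩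
      exact ⟨l * (g * h * g⁻¹), L.mul_mem hl (hN h hh).1, by group⟩
  inv := by
    rintro x ⟨l, hl, rfl⟩
    refine ⟨(g⁻¹ * l⁻¹ * g) * (g * g)⁻¹, L.mul_mem (hN _ (L.inv_mem hl)).2 (L.inv_mem hgg), ?_⟩
    group

theorem ptB {G : Type} [Group G] {L : Subgroup G} {X1 X2 X3 Yp Ym : Set G}
    (P : PPK L X1 X2 X3 Yp Ym) : Pt L X2 X2 where
  sub := fun _ h => h
  bi := ⟨P.X2l, P.X2r⟩
  inv := P.X2i

end SGNM

/-- **Module SGN**: a stable flip and no flips. -/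
theorem specSGN (hDWP : SpecDWP) (hDWG : SpecDWG) : SpecSGN := by
  intro R G V _ _ _ _ d hd N x1 x2 hN hCl L X1 X2 Yp Ym P hG g hg hgg hNs ε n ψ χ hψ hχ hfl hν
  have p1 := SGNM.ptA P hg hgg hNs
  have p2 := SGNM.ptB P
  have P' : PPK L (La L g) X2 ∅ Yp Ym := (hDWP G L X1 X2 Yp Ym P).2 (La L g) X2 p1 p2
  have hG' : Geo d L (La L g) X2 ∅ x1 x2 :=
    (hDWG G V d hd L X1 X2 x1 x2 hG).2 (La L g) X2 p1 p2
  have hψ' : SuppIn (La L g) ψ := fun i j x hx => SGNM.dc_sub hNs x (hψ i j x hx)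
  refine mSTY R G L g X2 Yp Ym P' ε n N hN ψ χ hψ' hχ hν hfl ?_
  intro W hW h3 χ' hχ' hν2
  exact hCl h3 L (La L g) (XD (La L g) W) _ _ (mDRC G L g X2 Yp Ym W P' hW)
    (specDRG G V d L g X2 Yp Ym W x1 x2 P' hW hG') ε n ψ χ' hψ' hχ' hν2

end Pool.Agent.Lib.MP8a3537.LL
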