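import Pool.Agent.Lib.MP_8a3537_gt.LL.Spec

/-!
# Only lines matter (MP_8a3537_gt, folder LL), module SGS: single pieces (helper94)
-/

set_option autoImplicit false

namespace Pool.Agent.Lib.MP8a3537.LL

open Matrix Pool.Agent.Lib.MP8a3537.UV Pool.Agent.Lib.MP8a3537.AU Pool.Agent.Lib.MP8a3537.RO
open Pool.Agent.Lib.MP8a3537.ROK

namespace SGSM

section Sets

variable {G : Type} [Group G] {L : Subgroup G}

theorem dc_trans {x y z : G} (h : y ∈ dc L x) (h' : z ∈ dc L y) : z ∈ dc L x := by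
  obtain ⟨a, ha, b, hb, rfl⟩ := h
  obtain ⟨c, hc, e, he, rfl⟩ := h'
  exact ⟨c * a, L.mul_mem hc ha, b * e, L.mul_mem hb he, by group⟩

theorem dc_symm {x y : G} (h : y ∈ dc L x) : x ∈ dc L y := by
  obtain ⟨a, ha, b, hb, rfl⟩ := h
  exact ⟨a⁻¹, L.inv_mem ha, b⁻¹, L.inv_mem hb, by group⟩

theorem dc_inv_inv {x y : G} (h : y ∈ dc L x) : y⁻¹ ∈ dc L x⁻¹ := by
  obtain ⟨a, ha, b, hb, rfl⟩ := h
  exact ⟨b⁻¹, L.inv_mem hb, a⁻¹, L.inv_mem ha, by group⟩

/-- If `x` is a flip, `D2 L x` is contained in `dc L g` for an element `g` of `x L`. -/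
theorem D2_flip {x h : G} (hgg : (x * h) * (x * h) ∈ L) (hx : x ∈ dc L (x * h)) {y : G}
    (hy : y ∈ D2 L x) : y ∈ dc L (x * h) := by
  rcases hy with hy | hy
  · exact dc_trans hx hy
  · exact dc_trans (RO.ELMAux.dc_inv L (x * h) hgg hx) hy

/-- If `x` is not a flip, then `D2 L x` contains no flip. -/
theorem D2_nonflip {x : G} (hx : ¬ Flip L x) {y : G} (hy : y ∈ D2 L x) : ¬ Flip L y := by
  intro hf
  apply hx
  have hf' : y⁻¹ ∈ dc L y := hf
  change x⁻¹ ∈ dc L x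
  rcases hy with hy | hy
  · exact dc_trans (dc_trans hy hf') (dc_symm (dc_inv_inv hy))
  · have h1 : x ∈ dc L y⁻¹ := by
      have := dc_symm (dc_inv_inv hy)
      rwa [inv_inv] at this
    have h2 : x ∈ dc L x⁻¹ := dc_trans (dc_trans hy hf') h1
    exact dc_symm h2

theorem dc_La {g : G} (hn : Ns L g) {y : G} (hy : y ∈ dc L g) : y ∈ La L g := by
  obtain ⟨a, ha, b, hb, rfl⟩ := hy
  exact ⟨a * (g * b * g⁻¹), L.mul_mem ha (hn b hb).1, by group⟩

end Sets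

section Forms

variable {R G : Type} [Ring R] [StarRing R] [Group G]

theorem swap0 (ε : ℤˣ) {n N : ℕ} {a b : Matrix (Fin n) (Fin n) (MonoidAlgebra R G)}
    (h : (nu ε a 0 b) ^ N = 0) : (nu ε b 0 a) ^ N = 0 := by
  have := INDAux.swap_zero ε a 0 b N h
  rwa [conjTranspose_zero] at this

theorem swapUF {ε : ℤˣ} {n : ℕ} {ψ χ : Matrix (Fin n) (Fin n) (MonoidAlgebra R G)}
    (h : StablyHyperbolic ε (UF χ 0 ψ)) : StablyHyperbolic ε (UF ψ 0 χ) := by
  apply (specSwp (MonoidAlgebra R G) ε n ψ 0 χ).1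
  rwa [conjTranspose_zero]

theorem Cl_swap {V : Type} [MulAction G V] {d : V → V → ℕ} {N : ℕ} {x1 x2 : V}
    (h : Cl R G d N x1 x2) : Cl R G d N x2 x1 := by
  intro L X1 X2 Yp Ym P hg ε n ψ χ hψ hχ hν
  obtain ⟨-, -, s3, s4⟩ := specSYK G L X1 X2 ∅ Yp Ym
  exact swapUF (h L X2 X1 Ym Yp (s3 P) (s4 V d x2 x1 hg) ε n χ ψ hχ hψ (swap0 ε hν))

end Forms

/-- The two stable flips: the line condition. -/
theorem lines {R G V : Type} [Ring R] [StarRing R] [Group G] [MulAction G V] {d : V → V → ℕ}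
    (hT : TM G d) {x1 x2 : V} (hHS : HS R G d x1 x2) {L : Subgroup G} {X1 X2 Yp Ym : Set G}
    (P : PPK L X1 X2 ∅ Yp Ym) (hg : Geo d L X1 X2 ∅ x1 x2) {g f : G} (hg1 : g ∈ X1)
    (hf2 : f ∈ X2) (hgn : Ns L g) (hfn : Ns L f) (hgg : g * g ∈ L) (hff : f * f ∈ L) :
    Blk R (La L g) (La L f) := by
  have hL : L = MulAction.stabilizer G x1 ⊓ MulAction.stabilizer G x2 := by
    ext a
    rw [Subgroup.mem_inf, MulAction.mem_stabilizer_iff, MulAction.mem_stabilizer_iff]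
    exact hg.st a
  subst hL
  have z1 : d x1 x1 = 0 := (hT.d0 x1 x1).2 rfl
  have z2 : d x2 x2 = 0 := (hT.d0 x2 x2).2 rfl
  have m1 : d x1 (g • x1) = d x1 x2 + d x2 (g • x1) :=
    hg.mv false true g x1 hg1 (show d x2 x1 = d x2 x1 + d x1 x1 by rw [z1, add_zero])
  have m2 : d x2 (f • x2) = d x2 x1 + d x1 (f • x2) :=
    hg.mv true false f x2 hf2 (show d x1 x2 = d x1 x2 + d x2 x2 by rw [z2, add_zero])
  have n1 : ∀ h ∈ MulAction.stabilizer G x1 ⊓ MulAction.stabilizer G x2, h * g * (h * g) ≠ 1 := by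
    intro h hh e
    exact P.X1n _ (P.X1l h hh g hg1) (inv_eq_of_mul_eq_one_right e)
  have n2 : ∀ h ∈ MulAction.stabilizer G x1 ⊓ MulAction.stabilizer G x2, h * f * (h * f) ≠ 1 := by
    intro h hh e
    exact P.X2n _ (P.X2l h hh f hf2) (inv_eq_of_mul_eq_one_right e)
  refine hHS g f hgn hfn hgg hff m1 m2 ?_ n1 n2
  rintro ⟨e1, e2⟩
  have g2 : g • x2 = x1 := by
    rw [← e1, ← mul_smul]
    exact ((hg.st _).1 hgg).1
  have f1 : f • x1 = x2 := by
    rw [← e2, ← mul_smul]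
    exact ((hg.st _).1 hff).2
  have hl : g⁻¹ * f ∈ MulAction.stabilizer G x1 ⊓ MulAction.stabilizer G x2 := by
    refine (hg.st _).2 ⟨?_, ?_⟩
    · rw [mul_smul, f1, ← e1, inv_smul_smul]
    · rw [mul_smul, e2]
      nth_rewrite 1 [← g2]
      rw [inv_smul_smul]
  have hf1 : f ∈ X1 := by
    have := P.X1r _ hl g hg1
    rwa [mul_inv_cancel_left] at this
  have y1 : f ∈ Ym := by
    have := P.X1Y f hf1 1 P.Yp1
    rwa [mul_one] at this
  have y2 : f ∈ Yp := by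
    have := P.X2Y f hf2 1 P.Ym1
    rwa [mul_one] at this
  exact P.xh true false f hf2 (P.yy f y2 y1)

end SGSM

open SGSM in
/-- **SGS**: single pieces. -/
theorem specSGS (hFML : SpecFML) (hSGU : SpecSGU) (hSGN : SpecSGN) : SpecSGS := by
  intro R G V _ _ _ _ d hT N x1 x2 hN hCl hU hU' hHS L X1 X2 Yp Ym P hg x hx y hy ε n ψ χ hψ hχ hν
  obtain ⟨-, -, s3, s4⟩ := specSYK G L X1 X2 ∅ Yp Ym
  have P' := s3 P
  have hg' := s4 V d x1 x2 hg
  have hν' := swap0 ε hν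
  have dX : ∀ {X1 X2 Yp Ym : Set G}, PPK L X1 X2 ∅ Yp Ym → ∀ z ∈ X1, ∀ w ∈ D2 L z, w ∈ X1 := by
    intro X1 X2 Yp Ym P z hz w hw
    have h1 : ∀ z ∈ X1, ∀ w ∈ dc L z, w ∈ X1 := by
      rintro z hz w ⟨a, ha, b, hb, rfl⟩
      exact P.X1r b hb _ (P.X1l a ha z hz)
    rcases hw with hw | hw
    · exact h1 z hz w hw
    · exact h1 _ (P.X1i z hz) w hw
  have hψ1 : SuppIn X1 ψ := fun i j z hz => dX P x hx z (hψ i j z hz)
  have hχ2 : SuppIn X2 χ := fun i j z hz => dX P' y hy z (hχ i j z hz)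
  by_cases fx : Flip L x
  · obtain ⟨h, hh, hgg, hxd⟩ := ROTAux.exists_flip fx
    have hgX : x * h ∈ X1 := P.X1r h hh x hx
    have hψg : SuppIn (dc L (x * h)) ψ := fun i j z hz => D2_flip hgg hxd (hψ i j z hz)
    by_cases ng : Ns L (x * h)
    · by_cases fy : Flip L y
      · obtain ⟨k, hk, hff, hyd⟩ := ROTAux.exists_flip fy
        have hfX : y * k ∈ X2 := P.X2r k hk y hy
        have hχf : SuppIn (dc L (y * k)) χ := fun i j z hz => D2_flip hff hyd (hχ i j z hz)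
        by_cases nf : Ns L (y * k)
        · exact lines hT hHS P hg hgX hfX ng nf hgg hff ε n ψ χ
            (fun i j z hz => dc_La ng (hψg i j z hz)) (fun i j z hz => dc_La nf (hχf i j z hz))
            ⟨N, hν⟩
        · exact swapUF (hSGU R G V d hT x2 x1 hU' L X2 X1 Ym Yp P' hg' (y * k) hfX hff nf ε n χ ψ
            hχf hψ1 ⟨N, hν'⟩)
      · exact hSGN R G V d hT N x1 x2 hN hCl L X1 X2 Yp Ym P hg (x * h) hgX hgg ng ε n ψ χ hψg
          hχ2 (fun i j z hz => D2_nonflip fy (hχ i j z hz)) hν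
    · exact hSGU R G V d hT x1 x2 hU L X1 X2 Yp Ym P hg (x * h) hgX hgg ng ε n ψ χ hψg hχ2
        ⟨N, hν⟩
  · by_cases fy : Flip L y
    · obtain ⟨k, hk, hff, hyd⟩ := ROTAux.exists_flip fy
      have hfX : y * k ∈ X2 := P.X2r k hk y hy
      have hχf : SuppIn (dc L (y * k)) χ := fun i j z hz => D2_flip hff hyd (hχ i j z hz)
      by_cases nf : Ns L (y * k)
      · exact swapUF (hSGN R G V d hT N x2 x1 hN (fun h => Cl_swap (hCl h)) L X2 X1 Ym Yp P' hg'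
          (y * k) hfX hff nf ε n χ ψ hχf hψ1 (fun i j z hz => D2_nonflip fx (hψ i j z hz)) hν')
      · exact swapUF (hSGU R G V d hT x2 x1 hU' L X2 X1 Ym Yp P' hg' (y * k) hfX hff nf ε n χ ψ
          hχf hψ1 ⟨N, hν'⟩)
    · have h0 : SuppIn (∅ : Set G) (0 : Matrix (Fin n) (Fin n) (MonoidAlgebra R G)) := by
        intro i j z hz
        exact absurd rfl hz
      exact mNWT R G L X1 X2 ∅ Yp Ym P.toPingPong ε n ψ 0 χ hψ1 h0 hχ2 ⟨N, hν⟩
        (fun i j z hz => D2_nonflip fx (hψ i j z hz))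
        (fun i j z hz => D2_nonflip fy (hχ i j z hz))

end Pool.Agent.Lib.MP8a3537.LL
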