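import Pool.Agent.Lib.MP_8a3537_gt.LL.Spec

/-!
# LL, module SGU (helper26): an unstable flip
-/

set_option autoImplicit false

namespace Pool.Agent.Lib.MP8a3537.LL

open Matrix Pool.Agent.Lib.MP8a3537.UV Pool.Agent.Lib.MP8a3537.AU Pool.Agent.Lib.MP8a3537.RO
open Pool.Agent.Lib.MP8a3537.ROK

namespace SGUM

theorem cutM_compl {R G m n : Type} [Ring R] {W : Set G} {M : Matrix m n (MonoidAlgebra R G)}
    (h : SuppIn W M) : cutM Wᶜ M = 0 := by
  ext i j x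
  show (cut Wᶜ (M i j)).coeff x = 0
  rw [cut_coeff]
  by_cases hx : (M i j).coeff x = 0
  · rw [hx, ite_self]
  · exact if_neg fun hc => hc (h i j x hx)

end SGUM

/-- **Module SGU**: an unstable flip. -/
theorem specSGU (hFML : SpecFML) : SpecSGU := by
  intro R G V _ _ _ _ d hd x1 x2 hHU L X1 X2 Yp Ym P hG g hg hgg hNs ε n ψ χ hψ hχ hnil
  have hL : MulAction.stabilizer G x1 ⊓ MulAction.stabilizer G x2 = L := by
    ext y
    rw [Subgroup.mem_inf, MulAction.mem_stabilizer_iff, MulAction.mem_stabilizer_iff, hG.st]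
  have hψ1 : SuppIn X1 ψ := fun i j x hx => by
    obtain ⟨h, hh, h', hh', rfl⟩ := hψ i j x hx
    exact P.X1r h' hh' _ (P.X1l h hh g hg)
  have h0 : SuppIn (∅ : Set G) (0 : Matrix (Fin n) (Fin n) (MonoidAlgebra R G)) :=
    fun i j x hx => absurd rfl hx
  obtain ⟨-, -, -, h4, -⟩ := mSBK G L X1 X2 ∅ Yp Ym P.toPingPong g hg hgg
  have hB := mBLK G L X1 X2 ∅ Yp Ym P g hg hgg
  obtain ⟨b1, b2, -⟩ := mBLG G V d hd L X1 X2 ∅ Yp Ym x1 x2 P.toPingPong hG g hg hgg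
  have hdist : d x1 (g • x1) = d x1 x2 + d x2 (g • x1) :=
    hG.mv false true g x1 hg (by
      show d x2 x1 = d x2 x1 + d x1 x1
      rw [(hd.d0 x1 x1).2 rfl, add_zero])
  have hSE := hHU g b2 hdist (by rw [hL]; exact hNs)
  have hblk : Blk R (La (Kg L g) g) (BX L X1 X2 ∅ g) :=
    hSE (Kg L g) g (BX L X1 X2 ∅ g) _ _ hB b1 rfl b2
  obtain ⟨-, h2⟩ := mELM R G L X1 X2 ∅ Yp Ym P.toPingPong ε n ψ 0 χ hψ1 h0 hχ hnil g hg hgg h4
    (fun r ψ' κ hψ' hκ hn => hblk ε r ψ' κ hψ' hκ hn)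
  apply h2
  rw [SGUM.cutM_compl hψ]
  apply (specSwp (MonoidAlgebra R G) ε n 0 0 χ).1
  rw [conjTranspose_zero]
  exact (hFML (MonoidAlgebra R G) ε n).2 χ

end Pool.Agent.Lib.MP8a3537.LL
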