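import Pool.Agent.Lib.MP_8a3537_gt.LL.Spec

/-! # LL, module SPR (helper15): supports -/

set_option autoImplicit false

namespace Pool.Agent.Lib.MP8a3537.LL

open Matrix Pool.Agent.Lib.MP8a3537.UV Pool.Agent.Lib.MP8a3537.AU Pool.Agent.Lib.MP8a3537.RO
open Pool.Agent.Lib.MP8a3537.ROK

namespace SPRM

variable {R G : Type} [Ring R] [StarRing R] [Group G]

/-- The family of the sets of words with at least `k` letters. -/
structure Fam (Θ : ℕ → Bool → Bool → Set G) : Prop where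
  mul : ∀ k l s r t, ∀ x ∈ Θ k s r, ∀ y ∈ Θ l r t, x * y ∈ Θ (k + l) s t
  inv : ∀ k s t, ∀ x ∈ Θ k s t, x⁻¹ ∈ Θ k (!t) (!s)
  one : ∀ s, (1 : G) ∈ Θ 0 s s
  mono : ∀ k l s t, k ≤ l → ∀ x ∈ Θ l s t, x ∈ Θ k s t

theorem supp_zero {m n : Type} (X : Set G) : SuppIn X (0 : Matrix m n (MonoidAlgebra R G)) := by
  intro i j g hg
  exact absurd (by simp) hg

theorem supp_one {n : ℕ} {X : Set G} (hX : (1 : G) ∈ X) :
    SuppIn X (1 : Matrix (Fin n) (Fin n) (MonoidAlgebra R G)) := by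
  intro i j g hg
  rw [Matrix.one_apply] at hg
  split_ifs at hg with h
  · have hg1 : g = 1 := by
      by_contra hc
      exact hg (NILAux.coeff_one_ne g hc)
    rw [hg1]
    exact hX
  · exact absurd (by simp) hg

variable {Θ : ℕ → Bool → Bool → Set G} {n : ℕ}

/-- `T - 1` has at least two letters. -/
theorem tn (F : Fam Θ) (ε : ℤˣ) {N : ℕ} (hN : 1 ≤ N) (s r : Bool)
    (a b : Matrix (Fin n) (Fin n) (MonoidAlgebra R G)) (ha : SuppIn (Θ 1 r s) a)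
    (hb : SuppIn (Θ 1 s r) b) :
    SuppIn (Θ 0 s s) (Tn ε N b a) ∧ SuppIn (Θ 2 s s) (Tn ε N b a - 1) := by
  obtain ⟨m, rfl⟩ : ∃ m, N = m + 1 := ⟨N - 1, by omega⟩
  have h1 : SuppIn (Θ 2 s s) ((ε : ℤ) • (b * a)) :=
    INDAux.supp_units ε (INDAux.supp_mul hb ha (F.mul 1 1 s r s))
  have hp : ∀ i : ℕ, SuppIn (Θ 2 s s) (((ε : ℤ) • (b * a)) ^ (i + 1)) := by
    intro i
    induction i with
    | zero => rw [zero_add, pow_one]; exact h1
    | succ i ih =>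
      rw [pow_succ]
      exact NILAux.supp_mono (INDAux.supp_mul ih h1 (F.mul 2 2 s s s))
        (F.mono 2 4 s s (by norm_num))
  have hT : Tn ε (m + 1) b a - 1 = ∑ i ∈ Finset.range m, ((ε : ℤ) • (b * a)) ^ (i + 1) := by
    unfold Tn
    rw [Finset.sum_range_succ', pow_zero, add_sub_cancel_right]
  have h2 : SuppIn (Θ 2 s s) (Tn ε (m + 1) b a - 1) := by
    rw [hT]
    exact Finset.sum_induction _ (SuppIn (Θ 2 s s)) (fun _ _ => INDAux.supp_add)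
      (supp_zero _) (fun i _ => hp i)
  refine ⟨?_, h2⟩
  have h3 : Tn ε (m + 1) b a = (Tn ε (m + 1) b a - 1) + 1 := by abel
  rw [h3]
  exact INDAux.supp_add (NILAux.supp_mono h2 (F.mono 0 2 s s (by norm_num)))
    (supp_one (F.one s))

/-- The support of `ρ`. -/
theorem rho_supp (F : Fam Θ) (ε : ℤˣ) {N : ℕ} (hN : 1 ≤ N) (s : Bool)
    (ψ χ : Matrix (Fin n) (Fin n) (MonoidAlgebra R G)) (hψ : SuppIn (Θ 1 (!s) s) ψ)
    (hχ : SuppIn (Θ 1 s (!s)) χ) : SuppIn (Θ 3 s (!s)) (rho ε N ψ χ) := by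
  have hψs : SuppIn (Θ 1 (!s) s) ψᴴ := by
    have h := INDAux.supp_star hψ (F.inv 1 (!s) s)
    rwa [Bool.not_not] at h
  have hχs : SuppIn (Θ 1 s (!s)) χᴴ := by
    have h := INDAux.supp_star hχ (F.inv 1 s (!s))
    rwa [Bool.not_not] at h
  set a := ψ + (ε : ℤ) • ψᴴ with had
  set b := χ + (ε : ℤ) • χᴴ with hbd
  have ha : SuppIn (Θ 1 (!s) s) a := INDAux.supp_add hψ (INDAux.supp_units ε hψs)
  have hb : SuppIn (Θ 1 s (!s)) b := INDAux.supp_add hχ (INDAux.supp_units ε hχs)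
  obtain ⟨hT0, hT2⟩ := tn F ε hN (!s) s b a hb ha
  obtain ⟨hU0, hU2⟩ := tn F ε hN s (!s) a b ha hb
  have e : Tn ε N b a * χᴴ * Tn ε N a b - χᴴ =
      (Tn ε N b a - 1) * χᴴ * Tn ε N a b + χᴴ * (Tn ε N a b - 1) := by
    rw [Matrix.mul_sub, Matrix.mul_one, Matrix.sub_mul, Matrix.sub_mul, Matrix.one_mul]
    abel
  unfold rho
  rw [← had, ← hbd, e, sub_eq_add_neg]
  refine INDAux.supp_add (INDAux.supp_units ε (INDAux.supp_add ?_ ?_))
    (INDAux.supp_neg (INDAux.supp_units ε ?_))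
  · exact INDAux.supp_mul (INDAux.supp_mul hU2 hχs (F.mul 2 1 s s (!s))) hT0
      (F.mul 3 0 s (!s) (!s))
  · exact INDAux.supp_mul hχs hT2 (F.mul 1 2 s (!s) (!s))
  · have h1 := INDAux.supp_mul hU0 hb (F.mul 0 1 s s (!s))
    have h2 := INDAux.supp_mul h1 hψ (F.mul 1 1 s (!s) s)
    have h3 := INDAux.supp_mul h2 hb (F.mul 2 1 s s (!s))
    exact INDAux.supp_mul h3 hT0 (F.mul 3 0 s (!s) (!s))

end SPRM

open SPRM in
theorem specSPR : SpecSPR := by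
  intro R G _ _ _ L X1 X2 Yp Ym c P hc ε n N hN ψ χ hψ hχ
  have hSub : Sub1 L X1 X2 ∅ Yp Ym c := ⟨P.toPingPong, hc.sub, hc.bi, hc.inv⟩
  obtain ⟨-, hmul, hinv, -, hlet⟩ := mWDA G L X1 X2 ∅ Yp Ym c hSub
  have F : Fam (fun k s t => {z : G | ∃ j, k ≤ j ∧ Wd L c X2 ∅ j s t z}) := by
    refine ⟨?_, ?_, ?_, ?_⟩
    · rintro k l s r t x ⟨i, hi, hx⟩ y ⟨j, hj, hy⟩
      exact ⟨i + j, by omega, hmul i j s r t x y hx hy⟩
    · rintro k s t x ⟨i, hi, hx⟩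
      exact ⟨i, hi, hinv i s t x hx⟩
    · intro s
      exact ⟨0, le_rfl, Wd.base L.one_mem⟩
    · rintro k l s t hkl x ⟨i, hi, hx⟩
      exact ⟨i, hkl.trans hi, hx⟩
  have hψ' : SuppIn {z : G | ∃ j, 1 ≤ j ∧ Wd L c X2 ∅ j false true z} ψ :=
    NILAux.supp_mono hψ fun x hx => ⟨1, le_rfl, (hlet false true x hx).1⟩
  have hχ' : SuppIn {z : G | ∃ j, 1 ≤ j ∧ Wd L c X2 ∅ j true false z} χ :=
    NILAux.supp_mono hχ fun x hx => ⟨1, le_rfl, (hlet true false x hx).1⟩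
  refine ⟨rho_supp F ε hN true ψ χ hψ' hχ', ?_⟩
  have h1 := rho_supp F ε hN false χ ψ hχ' hψ'
  refine INDAux.supp_add (NILAux.supp_mono hψ' ?_) (NILAux.supp_mono h1 ?_)
  · rintro x ⟨j, -, hj⟩
    exact ⟨j, hj⟩
  · rintro x ⟨j, -, hj⟩
    exact ⟨j, hj⟩

end Pool.Agent.Lib.MP8a3537.LL
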