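import Pool.Agent.Lib.MP_8a3537_gt.LL.FML
import Pool.Agent.Lib.MP_8a3537_gt.LL.FMR
import Pool.Agent.Lib.MP_8a3537_gt.LL.SPR
import Pool.Agent.Lib.MP_8a3537_gt.LL.DWU
import Pool.Agent.Lib.MP_8a3537_gt.LL.DWP
import Pool.Agent.Lib.MP_8a3537_gt.LL.DWG
import Pool.Agent.Lib.MP_8a3537_gt.LL.LNR
import Pool.Agent.Lib.MP_8a3537_gt.LL.DCM
import Pool.Agent.Lib.MP_8a3537_gt.LL.SGU
import Pool.Agent.Lib.MP_8a3537_gt.LL.SGN
import Pool.Agent.Lib.MP_8a3537_gt.LL.SGS
import Pool.Agent.Lib.MP_8a3537_gt.LL.CLM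
import Pool.Agent.Lib.MP_8a3537_gt.LL.GQS
import Pool.Agent.Lib.MP_8a3537_gt.LL.CHN
import Pool.Agent.Lib.MP_8a3537_gt.LL.FLL
import Pool.Agent.Lib.MP_8a3537_gt.LL.HLN

/-!
# Only lines matter, without hypotheses (MP_8a3537_gt, folder LL)
-/

set_option autoImplicit false

namespace Pool.Agent.Lib.MP8a3537.LL

open Matrix Pool.Agent.Lib.MP8a3537.UV Pool.Agent.Lib.MP8a3537.AU Pool.Agent.Lib.MP8a3537.RO
open Pool.Agent.Lib.MP8a3537.ROK

theorem mDWP : SpecDWP := specDWP specDWU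

theorem mLNR : SpecLNR := specLNR specFML specFMR specSPR mDWP specDWG

theorem mDCM : SpecDCM := specDCM specFML mLNR

theorem mSGS : SpecSGS := specSGS specFML (specSGU specFML) (specSGN mDWP specDWG)

theorem mCLM : SpecCLM := specCLM mDCM mSGS

theorem mFLL : SpecFLL := specFLL (specGQS mCLM) specCHN

/-- **The theorem.** -/
theorem main (R G V : Type) [Ring R] [StarRing R] [Group G] [MulAction G V] (T : SimpleGraph V)
    (v w : V) (hT : T.IsTree) (hact : ∀ (g : G) (x y : V), T.Adj x y → T.Adj (g • x) (g • y))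
    (hvw : T.Adj v w) (hinv : ∀ g : G, ¬ (g • v = w ∧ g • w = v))
    (htwo : ∀ g : G, g * g = 1 → (g • v = v ↔ g • w = w))
    (hline : ∀ (x y : V) (g f : G), T.dist x y = T.dist x v + 1 + T.dist w y → g • x = y →
      g • y = x → Ns (MulAction.stabilizer G x ⊓ MulAction.stabilizer G y) f →
      f * f ∈ MulAction.stabilizer G x ⊓ MulAction.stabilizer G y →
      T.dist y (f • y) = T.dist y x + T.dist x (f • y) → f • y ≠ x →
      (∀ h ∈ MulAction.stabilizer G x ⊓ MulAction.stabilizer G y, h * g * (h * g) ≠ 1) →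
      (∀ h ∈ MulAction.stabilizer G x ⊓ MulAction.stabilizer G y, h * f * (h * f) ≠ 1) →
      ROW.RgW R G x y ∨ Blk R (La (MulAction.stabilizer G x ⊓ MulAction.stabilizer G y) g)
        (La (MulAction.stabilizer G x ⊓ MulAction.stabilizer G y) f))
    (hchain : ∀ x y : ℕ → V,
      (∀ i, T.dist (x i) (y i) = T.dist (x i) v + 1 + T.dist w (y i)) →
      (∀ i, ∃ g : G, g • x i = y i ∧ g • y i = x i) →
      (∀ i, T.dist (x (i + 1)) (y (i + 1)) =
        T.dist (x (i + 1)) (x i) + T.dist (x i) (y i) + T.dist (y i) (y (i + 1))) →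
      (∀ i, MulAction.stabilizer G (x (i + 1)) ⊓ MulAction.stabilizer G (y (i + 1)) <
        MulAction.stabilizer G (x i) ⊓ MulAction.stabilizer G (y i)) →
      ∃ i, ROW.RgW R G (x i) (y i))
    (ε : ℤˣ) (n : ℕ) (ψ μ χ : Matrix (Fin n) (Fin n) (MonoidAlgebra R G))
    (hψ : SuppIn {g | g • v = v ∧ g • w ≠ w} ψ) (hμ : SuppIn {g | g • v = w} μ)
    (hχ : SuppIn {g | g • w = w ∧ g • v ≠ v} χ)
    (hnil : IsNilpotent (nu ε (ψ + (ε : ℤ) • ψᴴ) μ (χ + (ε : ℤ) • χᴴ))) :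
    StablyHyperbolic ε (UF ψ μ χ) := by
  have hd : TM G (V := V) T.dist := specFPT G V T hT hact
  have h1 : T.dist v w = 1 := SimpleGraph.dist_eq_one_iff_adj.2 hvw
  refine mFLL R G V T v w hT hact hvw hinv htwo ?_ hchain ε n ψ μ χ hψ hμ hχ hnil
  intro x y hxy _
  refine hln R G V T.dist hd v w ?_ x y ?_ (by rw [h1]; exact hxy)
  · intro x' y' g f e
    rw [h1] at e
    exact hline x' y' g f e
  · intro he
    rw [he, (hd.d0 y y).2 rfl] at hxy
    omega

end Pool.Agent.Lib.MP8a3537.LL
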