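import Pool.Agent.Lib.MP_8a3537_gt.LL.Spec

/-!
# Only lines matter (MP_8a3537_gt, folder LL), module CLM: the claim for all indices, and SE (helper80)
-/

set_option autoImplicit false

namespace Pool.Agent.Lib.MP8a3537.LL

open Matrix Pool.Agent.Lib.MP8a3537.UV Pool.Agent.Lib.MP8a3537.AU Pool.Agent.Lib.MP8a3537.RO
open Pool.Agent.Lib.MP8a3537.ROK

/-- **CLM**: the claim for all indices, and `SE`. -/
theorem specCLM (hDCM : SpecDCM) (hSGS : SpecSGS) : SpecCLM := by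
  intro R G V _ _ _ _ d hT x1 x2 h12 h21 hs
  have hCl : ∀ N, 1 ≤ N → Cl R G d N x1 x2 := by
    intro N
    induction N with
    | zero => intro h; omega
    | succ N ih =>
      intro hN L X1 X2 Yp Ym P hg ε n ψ χ hψ hχ hν
      have hc : 3 ≤ N + 1 → Cl R G d (N + 1 - 1) x1 x2 := fun h => by
        rw [Nat.add_sub_cancel]
        exact ih (by omega)
      exact hDCM R G V d hT (N + 1) x1 x2 hN hc L X1 X2 Yp Ym P hg
        (hSGS R G V d hT (N + 1) x1 x2 hN hc h12 h21 hs L X1 X2 Yp Ym P hg)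
        ε n ψ χ hψ hχ hν
  refine ⟨hCl, ?_⟩
  intro L g Xb Yp Ym P hg _ _ ε n ψ χ hψ hχ hν
  obtain ⟨N, hN⟩ := hν
  refine hCl (N + 1) (by omega) L (La L g) Xb Yp Ym P hg ε n ψ χ hψ hχ ?_
  rw [pow_succ, hN, zero_mul]

end Pool.Agent.Lib.MP8a3537.LL
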