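import Pool.Agent.Lib.MP_8a3537_gt.LL.Spec

/-! # LL, module FML (helper15): the formula -/

set_option autoImplicit false

namespace Pool.Agent.Lib.MP8a3537.LL

open Matrix Pool.Agent.Lib.MP8a3537.UV Pool.Agent.Lib.MP8a3537.AU Pool.Agent.Lib.MP8a3537.RO
open Pool.Agent.Lib.MP8a3537.ROK

namespace FMLM

section

variable {A : Type} [Ring A] {n : ℕ}

theorem esq (ε : ℤˣ) {m k : Type} (X : Matrix m k A) : (ε : ℤ) • (ε : ℤ) • X = X := by
  rcases Int.units_eq_one_or ε with h | h <;> simp [h]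

theorem star_smul' [StarRing A] (ε : ℤˣ) {m k : Type} (X : Matrix m k A) :
    ((ε : ℤ) • X)ᴴ = (ε : ℤ) • Xᴴ := by
  rcases Int.units_eq_one_or ε with h | h <;> simp [h]

theorem Tn_inv (ε : ℤˣ) (N : ℕ) (a b : Matrix (Fin n) (Fin n) A)
    (h : ((ε : ℤ) • (a * b)) ^ N = 0) :
    Tn ε N a b * (1 - (ε : ℤ) • (a * b)) = 1 ∧ (1 - (ε : ℤ) • (a * b)) * Tn ε N a b = 1 := by
  have h1 := geom_sum_mul_neg ((ε : ℤ) • (a * b)) N
  have h2 := mul_neg_geom_sum ((ε : ℤ) • (a * b)) N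
  rw [h, sub_zero] at h1 h2
  exact ⟨h1, h2⟩

theorem pow_comm (ε : ℤˣ) (a b : Matrix (Fin n) (Fin n) A) (i : ℕ) :
    ((ε : ℤ) • (b * a)) ^ i * b = b * ((ε : ℤ) • (a * b)) ^ i := by
  induction i with
  | zero => simp
  | succ i ih =>
    have h : ((ε : ℤ) • (b * a)) * b = b * ((ε : ℤ) • (a * b)) := by
      rw [Matrix.smul_mul, Matrix.mul_smul, Matrix.mul_assoc]
    rw [pow_succ, Matrix.mul_assoc, h, ← Matrix.mul_assoc, ih, Matrix.mul_assoc, ← pow_succ]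

theorem Tn_comm (ε : ℤˣ) (N : ℕ) (a b : Matrix (Fin n) (Fin n) A) :
    Tn ε N b a * b = b * Tn ε N a b := by
  unfold Tn
  rw [Finset.sum_mul, Finset.mul_sum]
  exact Finset.sum_congr rfl fun i _ => pow_comm ε a b i

theorem Tn_star [StarRing A] (ε : ℤˣ) (N : ℕ) (a b : Matrix (Fin n) (Fin n) A)
    (ha : aᴴ = (ε : ℤ) • a) (hb : bᴴ = (ε : ℤ) • b) : (Tn ε N a b)ᴴ = Tn ε N b a := by
  unfold Tn
  rw [conjTranspose_sum]
  refine Finset.sum_congr rfl fun i _ => ?_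
  rw [conjTranspose_pow, star_smul', conjTranspose_mul, ha, hb, Matrix.smul_mul, Matrix.mul_smul,
    esq]

theorem nu_pow [StarRing A] (ε : ℤˣ) (a b : Matrix (Fin n) (Fin n) A) (k : ℕ) :
    ((nu ε a 0 b) ^ 2) ^ k =
      fromBlocks (((ε : ℤ) • (b * a)) ^ k) 0 0 (((ε : ℤ) • (a * b)) ^ k) := by
  have h2 : (nu ε a 0 b) ^ 2 = fromBlocks ((ε : ℤ) • (b * a)) 0 0 ((ε : ℤ) • (a * b)) := by
    unfold nu
    rw [pow_two, fromBlocks_multiply]
    rcases Int.units_eq_one_or ε with h | h <;> simp [h]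
  induction k with
  | zero => simp [fromBlocks_one]
  | succ k ih =>
    rw [pow_succ, ih, h2, fromBlocks_multiply, pow_succ, pow_succ]
    simp

theorem pow_zero_of_nu [StarRing A] (ε : ℤˣ) (N : ℕ) (a b : Matrix (Fin n) (Fin n) A)
    (h : (nu ε a 0 b) ^ N = 0) :
    ((ε : ℤ) • (a * b)) ^ N = 0 ∧ ((ε : ℤ) • (b * a)) ^ N = 0 := by
  have h1 : ((nu ε a 0 b) ^ 2) ^ N = 0 := by
    rw [← pow_mul, mul_comm, pow_mul, h]
    exact zero_pow two_ne_zero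
  rw [nu_pow, ← fromBlocks_zero, fromBlocks_inj] at h1
  exact ⟨h1.2.2.2, h1.1⟩

/-- The second part. -/
theorem half [StarRing A] (ε : ℤˣ) (σ : Matrix (Fin n) (Fin n) A) :
    StablyHyperbolic ε (UF σ 0 0) := by
  refine SWPAux.stab_of_isom (Φ := UF 0 0 0) ?_ (SWPAux.trivial_form n)
  refine ⟨fromBlocks 1 0 (-σ) 1, fromBlocks 1 0 σ 1, 0, ?_, ?_, ?_⟩
  · rw [fromBlocks_multiply]
    simp [fromBlocks_one]
  · rw [fromBlocks_multiply]
    simp [fromBlocks_one]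
  · unfold UF
    rw [fromBlocks_conjTranspose, fromBlocks_multiply, fromBlocks_multiply]
    simp

end

end FMLM

open FMLM in
theorem specFML : SpecFML := by
  intro A _ _ ε n
  refine ⟨?_, fun σ => half ε σ⟩
  intro N ψ1 ψ2 χ hν h1 h2
  set a := ψ1 + (ε : ℤ) • ψ1ᴴ with ha
  set b := χ + (ε : ℤ) • χᴴ with hb
  have hae : aᴴ = (ε : ℤ) • a := by
    rw [ha, conjTranspose_add, star_smul', conjTranspose_conjTranspose, smul_add, esq, add_comm]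
  have hbe : bᴴ = (ε : ℤ) • b := by
    rw [hb, conjTranspose_add, star_smul', conjTranspose_conjTranspose, smul_add, esq, add_comm]
  obtain ⟨hab, hba⟩ := pow_zero_of_nu ε N a b hν
  set T := Tn ε N a b with hT
  set T' := Tn ε N b a with hT'
  obtain ⟨hT1, hT2⟩ := Tn_inv ε N a b hab
  obtain ⟨hT'1, hT'2⟩ := Tn_inv ε N b a hba
  rw [← hT] at hT1 hT2
  rw [← hT'] at hT'1 hT'2
  have hTs : Tᴴ = T' := Tn_star ε N a b hae hbe
  have hc1 : T' * b = b * T := Tn_comm ε N a b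
  have hc2 : T * a = a * T' := Tn_comm ε N b a
  have hT2e : (ε : ℤ) • (a * (b * T)) = T - 1 := by
    rw [Matrix.sub_mul, Matrix.one_mul, Matrix.smul_mul, Matrix.mul_assoc] at hT2
    rw [← hT2]; abel
  have hT1e : (ε : ℤ) • (T * (a * b)) = T - 1 := by
    rw [Matrix.mul_sub, Matrix.mul_one, Matrix.mul_smul] at hT1
    rw [← hT1]; abel
  have hT'2e : (ε : ℤ) • (b * (a * T')) = T' - 1 := by
    rw [Matrix.sub_mul, Matrix.one_mul, Matrix.smul_mul, Matrix.mul_assoc] at hT'2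
    rw [← hT'2]; abel
  have hT'1e : (ε : ℤ) • (T' * (b * a)) = T' - 1 := by
    rw [Matrix.mul_sub, Matrix.mul_one, Matrix.mul_smul] at hT'1
    rw [← hT'1]; abel
  have hΛ : UF ψ1 0 χ + (ε : ℤ) • (UF ψ1 0 χ)ᴴ = fromBlocks a 1 ((ε : ℤ) • 1) b := by
    unfold UF
    rw [fromBlocks_conjTranspose, fromBlocks_smul, fromBlocks_add]
    simp [ha, hb]
  set Φi : Matrix (Fin n ⊕ Fin n) (Fin n ⊕ Fin n) A :=
    fromBlocks (-((ε : ℤ) • (b * T))) ((ε : ℤ) • T') T (-((ε : ℤ) • (a * T'))) with hΦi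
  have hΦ1 : (UF ψ1 0 χ + (ε : ℤ) • (UF ψ1 0 χ)ᴴ) * Φi = 1 := by
    rw [hΛ, hΦi, fromBlocks_multiply, ← fromBlocks_one]
    congr 1
    · rw [Matrix.mul_neg, Matrix.mul_smul, hT2e, Matrix.one_mul]; abel
    · rw [Matrix.mul_smul, Matrix.one_mul]; abel
    · rw [Matrix.smul_mul, Matrix.one_mul, smul_neg, esq]; abel
    · rw [Matrix.smul_mul, Matrix.one_mul, esq, Matrix.mul_neg, Matrix.mul_smul, hT'2e]; abel
  have hΦ2 : Φi * (UF ψ1 0 χ + (ε : ℤ) • (UF ψ1 0 χ)ᴴ) = 1 := by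
    rw [hΛ, hΦi, fromBlocks_multiply, ← fromBlocks_one]
    congr 1
    · rw [Matrix.neg_mul, Matrix.smul_mul, ← hc1, Matrix.mul_assoc, hT'1e, Matrix.mul_smul,
        Matrix.mul_one, esq]; abel
    · rw [Matrix.mul_one, Matrix.smul_mul, hc1]; abel
    · rw [Matrix.mul_smul, Matrix.mul_one, smul_neg, esq, hc2]; abel
    · rw [Matrix.mul_one, Matrix.neg_mul, Matrix.smul_mul, ← hc2, Matrix.mul_assoc, hT1e]; abel
  let Ξ : Matrix (Fin n) (Fin n ⊕ Fin n) A := fromCols 1 0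
  have hΞ : Ξᴴ = fromRows 1 0 := by
    change (fromCols 1 0)ᴴ = _
    rw [conjTranspose_fromCols_eq_fromRows_conjTranspose, conjTranspose_zero, conjTranspose_one]
  have hZ : Φi * Ξᴴ = fromRows (-((ε : ℤ) • (b * T))) T := by
    rw [hΞ, hΦi, fromBlocks_mul_fromRows]
    simp
  have hz1 : (-((ε : ℤ) • (b * T)))ᴴ = -(T' * b) := by
    rw [conjTranspose_neg, star_smul', conjTranspose_mul, hTs, hbe, Matrix.mul_smul, esq]
  have hκ : -((Φi * Ξᴴ)ᴴ * UF ψ1 0 χ * (Φi * Ξᴴ)) =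
      χ + rho ε N ψ1 χ + (ε : ℤ) • χᴴ - (ε : ℤ) • ((ε : ℤ) • χᴴ)ᴴ := by
    rw [hZ]
    unfold UF
    rw [EMVAux.rows_form, hz1, hTs, star_smul', conjTranspose_conjTranspose, esq]
    unfold rho
    rw [← ha, ← hb, ← hT, ← hT']
    have e1 : -(T' * b) * ψ1 * -((ε : ℤ) • (b * T)) = (ε : ℤ) • (T' * b * ψ1 * b * T) := by
      rw [Matrix.mul_neg, Matrix.neg_mul, Matrix.neg_mul, neg_neg, Matrix.mul_smul]
      simp only [Matrix.mul_assoc]
    have e2 : (ε : ℤ) • (T' * χᴴ * T) = T' * b * T - T' * χ * T := by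
      rw [hb, Matrix.mul_add, Matrix.add_mul, Matrix.mul_smul, Matrix.smul_mul]
      abel
    have e3 : -(T' * b) * (1 + (0 : Matrix (Fin n) (Fin n) A)ᴴ) * T = -(T' * b * T) := by
      simp
    rw [e1, e3, smul_sub, e2]
    simp
    abel
  have h3 := (specSwp A ε n ψ2 0 (χ + rho ε N ψ1 χ)).2.1 0 ((ε : ℤ) • χᴴ) h2
  have h4 := RO.specSCH A ε (Fin n ⊕ Fin n) (Fin n) (UF ψ1 0 χ) Φi Ξ ψ2 hΦ1 hΦ2 h1 (by
    rw [hκ]
    have h5 : UF (ψ2 + 0 - (ε : ℤ) • (0 : Matrix (Fin n) (Fin n) A)ᴴ) 0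
        (χ + rho ε N ψ1 χ + (ε : ℤ) • χᴴ - (ε : ℤ) • ((ε : ℤ) • χᴴ)ᴴ) =
        fromBlocks ψ2 1 0
          (χ + rho ε N ψ1 χ + (ε : ℤ) • χᴴ - (ε : ℤ) • ((ε : ℤ) • χᴴ)ᴴ) := by
      unfold UF
      simp
    rw [← h5]
    exact h3)
  have h7 : UF ψ1 0 χ + Ξᴴ * ψ2 * Ξ = UF (ψ1 + ψ2) 0 χ := by
    rw [hΞ]
    change UF ψ1 0 χ + fromRows 1 0 * ψ2 * fromCols 1 0 = _
    rw [fromRows_mul, fromRows_mul_fromCols]
    unfold UF
    rw [fromBlocks_add]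
    simp
  rw [h7] at h4
  exact h4

end Pool.Agent.Lib.MP8a3537.LL
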